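import Pool.Agent.TH425.FF.Iff
import Pool.Agent.TH425.FF.Cun
import Pool.Agent.W875.TS.COI

set_option autoImplicit false
set_option linter.unusedVariables false

/-! Equivariant Borel codings: a calculus for measurability and equivariance. -/

namespace Pool.Agent.Y558.VCD

open Set
open Pool.Agent.H533R2.VO (RS RIso)
open Pool.Agent.H533R2.VS
open Pool.Agent.TH425.FF (PCanon PExp FlipS)

/-- Types on which the permutations of `ℕ` act. -/
class Env (E : Type) where
  sm : Equiv.Perm ℕ → E → E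

instance : Env ℕ := ⟨fun σ u => σ u⟩
instance {E F : Type} [Env E] [Env F] : Env (E × F) := ⟨fun σ p => (Env.sm σ p.1, Env.sm σ p.2)⟩

variable {a : ℕ → ℕ} {E F : Type} [Env E] [Env F]

/-- Borel and equivariant properties. -/
structure Nc (Φ : List ℕ → RS a → E → Prop) : Prop where
  meas : ∀ p v, MeasurableSet {x | Φ p x v}
  inv : ∀ σ p x v, Φ (p.map σ) (act σ x) (Env.sm σ v) ↔ Φ p x v

theorem Nc.and {Φ Ψ : List ℕ → RS a → E → Prop} (h : Nc Φ) (h' : Nc Ψ) :
    Nc fun p x v => Φ p x v ∧ Ψ p x v :=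
  ⟨fun p v => (h.meas p v).inter (h'.meas p v), fun σ p x v => and_congr (h.inv _ _ _ _)
    (h'.inv _ _ _ _)⟩

theorem Nc.or {Φ Ψ : List ℕ → RS a → E → Prop} (h : Nc Φ) (h' : Nc Ψ) :
    Nc fun p x v => Φ p x v ∨ Ψ p x v :=
  ⟨fun p v => (h.meas p v).union (h'.meas p v), fun σ p x v => or_congr (h.inv _ _ _ _)
    (h'.inv _ _ _ _)⟩

theorem Nc.not {Φ : List ℕ → RS a → E → Prop} (h : Nc Φ) : Nc fun p x v => ¬ Φ p x v :=
  ⟨fun p v => (h.meas p v).compl, fun σ p x v => not_congr (h.inv _ _ _ _)⟩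

theorem Nc.congr {Φ Ψ : List ℕ → RS a → E → Prop} (h : Nc Φ) (h' : ∀ p x v, Φ p x v ↔ Ψ p x v) :
    Nc Ψ := by
  have : Φ = Ψ := by
    funext p x v
    exact propext (h' p x v)
  rwa [← this]

theorem Nc.imp {Φ Ψ : List ℕ → RS a → E → Prop} (h : Nc Φ) (h' : Nc Ψ) :
    Nc fun p x v => Φ p x v → Ψ p x v :=
  (h.not.or h').congr fun p x v => by tauto

theorem Nc.iff {Φ Ψ : List ℕ → RS a → E → Prop} (h : Nc Φ) (h' : Nc Ψ) :
    Nc fun p x v => Φ p x v ↔ Ψ p x v :=
  ((h.imp h').and (h'.imp h)).congr fun p x v => by tauto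

theorem Nc.ex {Φ : List ℕ → RS a → E × ℕ → Prop} (h : Nc Φ) :
    Nc fun p x v => ∃ w, Φ p x (v, w) :=
  ⟨fun p v => by
    have : {x : RS a | ∃ w, Φ p x (v, w)} = ⋃ w, {x | Φ p x (v, w)} := by
      ext x
      simp
    rw [this]
    exact MeasurableSet.iUnion fun w => h.meas _ _,
   fun σ p x v => by
    rw [σ.surjective.exists]
    exact exists_congr fun w => h.inv σ p x (v, w)⟩

theorem Nc.all {Φ : List ℕ → RS a → E × ℕ → Prop} (h : Nc Φ) :
    Nc fun p x v => ∀ w, Φ p x (v, w) :=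
  (h.not.ex.not).congr fun p x v => by simp

/-- change of variables -/
theorem Nc.sub {Φ : List ℕ → RS a → E → Prop} (h : Nc Φ) (f : F → E)
    (hf : ∀ σ v, f (Env.sm σ v) = Env.sm σ (f v)) : Nc fun p x v => Φ p x (f v) :=
  ⟨fun p v => h.meas _ _, fun σ p x v => by
    rw [hf]
    exact h.inv σ p x (f v)⟩

theorem Nc.const (P : Prop) : Nc fun (_ : List ℕ) (_ : RS a) (_ : E) => P :=
  ⟨fun _ _ => MeasurableSet.const P, fun _ _ _ _ => Iff.rfl⟩

/-- equality of variables -/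
theorem Nc.eq (f g : E → ℕ) (hf : ∀ σ v, f (Env.sm σ v) = Env.sm σ (f v))
    (hg : ∀ σ v, g (Env.sm σ v) = Env.sm σ (g v)) :
    Nc fun (_ : List ℕ) (_ : RS a) (v : E) => f v = g v :=
  ⟨fun _ _ => MeasurableSet.const _, fun σ p x v => by
    rw [hf, hg]
    exact σ.injective.eq_iff⟩

/-- atomic formulas -/
theorem Nc.rel (i : ℕ) (t : E → Fin (a i) → ℕ)
    (ht : ∀ σ v, t (Env.sm σ v) = ⇑σ ∘ t v) :
    Nc fun (_ : List ℕ) (x : RS a) (v : E) => x i (t v) = true :=
  ⟨fun p v => by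
    have h1 : Measurable fun x : RS a => x i (t v) :=
      (measurable_pi_apply _).comp (measurable_pi_apply i)
    exact h1 (measurableSet_singleton true),
   fun σ p x v => by
    have h1 : act σ x i (t (Env.sm σ v)) = x i (t v) := by
      unfold act
      rw [ht]
      congr 1
      funext j
      simp
    rw [h1]⟩

theorem p2_comp {n : ℕ} (σ : Equiv.Perm ℕ) (u v : ℕ) :
    (p2 (σ u) (σ v) : Fin n → ℕ) = ⇑σ ∘ p2 u v := by
  funext j
  unfold p2
  by_cases h : j.val = 0 <;> simp [h]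

/-- the binary relation number `i` -/
theorem Nc.bin (i : ℕ) (f g : E → ℕ) (hf : ∀ σ v, f (Env.sm σ v) = Env.sm σ (f v))
    (hg : ∀ σ v, g (Env.sm σ v) = Env.sm σ (g v)) :
    Nc fun (_ : List ℕ) (x : RS a) (v : E) => x i (p2 (f v) (g v)) = true :=
  Nc.rel i (fun v => p2 (f v) (g v)) fun σ v => by
    rw [hf, hg]
    exact p2_comp σ _ _

/-- the unary relation number `i` -/
theorem Nc.un (i : ℕ) (f : E → ℕ) (hf : ∀ σ v, f (Env.sm σ v) = Env.sm σ (f v)) :
    Nc fun (_ : List ℕ) (x : RS a) (v : E) => x i (fun _ => f v) = true :=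
  Nc.rel i (fun v _ => f v) fun σ v => by
    funext j
    exact hf σ v

/-- a parameter -/
theorem Nc.par {Φ : List ℕ → RS a → E × ℕ → Prop} (h : Nc Φ) :
    Nc fun p x v => ∃ b, p.head? = some b ∧ Φ p x (v, b) := by
  refine ⟨fun p v => ?_, fun σ p x v => ?_⟩
  · cases p with
    | nil =>
      have : {x : RS a | ∃ b, ([] : List ℕ).head? = some b ∧ Φ [] x (v, b)} = ∅ := by
        ext x
        simp
      rw [this]
      exact MeasurableSet.empty
    | cons b p =>
      have : {x : RS a | ∃ b', (b :: p).head? = some b' ∧ Φ (b :: p) x (v, b')} =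
          {x | Φ (b :: p) x (v, b)} := by
        ext x
        simp
      rw [this]
      exact h.meas _ _
  · cases p with
    | nil => simp
    | cons b p =>
      have h1 := h.inv σ (b :: p) x (v, b)
      simp only [List.map_cons, List.head?_cons, Option.some.injEq, exists_eq_left']
      exact h1

open Classical in
/-- The structure given by properties. -/
noncomputable def mk {b : ℕ → ℕ} (Φ : (i : ℕ) → List ℕ → RS a → (Fin (b i) → ℕ) → Prop)
    (p : List ℕ) (x : RS a) : RS b := fun i t => decide (Φ i p x t)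

instance (n : ℕ) : Env (Fin n → ℕ) := ⟨fun σ t => ⇑σ ∘ t⟩

theorem mk_meas {b : ℕ → ℕ} {Φ : (i : ℕ) → List ℕ → RS a → (Fin (b i) → ℕ) → Prop}
    (h : ∀ i, Nc (Φ i)) (p : List ℕ) : Measurable (mk Φ p : RS a → RS b) := by
  classical
  refine measurable_pi_iff.2 fun i => measurable_pi_iff.2 fun t => measurable_to_bool ?_
  refine (congrArg MeasurableSet (Set.ext fun x => ?_)).mp ((h i).meas p t)
  show Φ i p x t ↔ decide (Φ i p x t) = true
  exact decide_eq_true_iff.symm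

theorem mk_act {b : ℕ → ℕ} {Φ : (i : ℕ) → List ℕ → RS a → (Fin (b i) → ℕ) → Prop}
    (h : ∀ i, Nc (Φ i)) (σ : Equiv.Perm ℕ) (p : List ℕ) (x : RS a) :
    (mk Φ (p.map σ) (act σ x) : RS b) = act σ (mk Φ p x) := by
  classical
  funext i t
  show decide (Φ i (p.map σ) (act σ x) t) = decide (Φ i p x (⇑σ.symm ∘ t))
  have h1 := (h i).inv σ p x (⇑σ.symm ∘ t)
  have h2 : Env.sm σ (⇑σ.symm ∘ t) = t := by
    funext j
    show σ (σ.symm (t j)) = t j
    simp
  rw [h2] at h1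
  rw [decide_eq_decide]
  exact h1

theorem pcanon {b : ℕ → ℕ} {Φ : (i : ℕ) → List ℕ → RS a → (Fin (b i) → ℕ) → Prop}
    {Ψ : (i : ℕ) → List ℕ → RS b → (Fin (a i) → ℕ) → Prop}
    (h : ∀ i, Nc (Φ i)) (h' : ∀ i, Nc (Ψ i)) : PCanon (mk Φ) (mk Ψ) :=
  ⟨mk_meas h, mk_meas h', mk_act h, mk_act h'⟩

end Pool.Agent.Y558.VCD
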