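import Mathlib.Tactic

set_option autoImplicit false

/-! Graphs whose neighbourhoods have VC-dimension at most one. -/

namespace Pool.Agent.Y558.VCD

/-- Graphs with pairwise cross-free neighbourhoods. -/
structure Gr1 (R : ℕ → ℕ → Prop) : Prop where
  symm : ∀ u v, R u v → R v u
  irrefl : ∀ u, ¬ R u u
  cross : ∀ a b, a ≠ b → (∀ w, ¬ (R a w ∧ R b w)) ∨ (∀ w, R a w → R b w) ∨
    (∀ w, R b w → R a w) ∨ ∀ w, R a w ∨ R b w

/-- Complete multipartite graphs. -/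
structure Mul (R : ℕ → ℕ → Prop) : Prop where
  symm : ∀ u v, R u v → R v u
  irrefl : ∀ u, ¬ R u u
  trans : ∀ u v w, ¬ R u v → ¬ R v w → ¬ R u w

/-- Graphs with laminar neighbourhoods. -/
structure Ln (R : ℕ → ℕ → Prop) : Prop where
  symm : ∀ u v, R u v → R v u
  irrefl : ∀ u, ¬ R u u
  lam : ∀ a b, (∀ w, ¬ (R a w ∧ R b w)) ∨ (∀ w, R a w → R b w) ∨ (∀ w, R b w → R a w)

variable {R : ℕ → ℕ → Prop}

/-- The classification. -/
theorem Gr1.cases (h : Gr1 R) : Mul R ∨ Ln R := by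
  by_cases hT : ∃ a b c, R a b ∧ R b c ∧ R a c
  · left
    obtain ⟨a, b, c, hab, hbc, hac⟩ := hT
    have h1 : ∀ u v z, R u v → R v z → R u z → ∀ w, R u w ∨ R v w := by
      intro u v z huv hvz huz
      have hne : u ≠ v := fun e => h.irrefl v (e ▸ huv)
      rcases h.cross u v hne with h2 | h2 | h2 | h2
      · exact absurd ⟨huz, hvz⟩ (h2 z)
      · exact absurd (h2 v huv) (h.irrefl v)
      · exact absurd (h2 u (h.symm _ _ huv)) (h.irrefl u)
      · exact h2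
    have s := h.symm
    have hba := s _ _ hab
    have hcb := s _ _ hbc
    have hca := s _ _ hac
    have h2 : ∀ u v, R u v → ∃ z, R v z ∧ R u z := by
      intro u v huv
      -- `u` is adjacent to two of `a`, `b`, `c`
      have key : ∀ p q, R p q → R u p → R u q → ∃ z, R v z ∧ R u z := by
        intro p q hpq hup huq
        rcases h1 p q u hpq (s _ _ huq) (s _ _ hup) v with h3 | h3
        · exact ⟨p, s _ _ h3, hup⟩
        · exact ⟨q, s _ _ h3, huq⟩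
      rcases h1 a b c hab hbc hac u with h3 | h3
      · rcases h1 b c a hbc hca hba u with h4 | h4
        · exact key a b hab (s _ _ h3) (s _ _ h4)
        · exact key a c hac (s _ _ h3) (s _ _ h4)
      · rcases h1 a c b hac hcb hab u with h4 | h4
        · exact key b a hba (s _ _ h3) (s _ _ h4)
        · exact key b c hbc (s _ _ h3) (s _ _ h4)
    refine ⟨h.symm, h.irrefl, fun u v w h3 h4 h5 => ?_⟩
    obtain ⟨z, h6, h7⟩ := h2 u w h5
    rcases h1 u w z h5 h6 h7 v with h8 | h8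
    · exact h3 h8
    · exact h4 (s _ _ h8)
  · right
    refine ⟨h.symm, h.irrefl, fun a b => ?_⟩
    by_cases hab : a = b
    · subst hab
      exact Or.inr (Or.inl fun w hw => hw)
    rcases h.cross a b hab with h1 | h1 | h1 | h1
    · exact Or.inl h1
    · exact Or.inr (Or.inl h1)
    · exact Or.inr (Or.inr h1)
    · left
      rintro w ⟨h2, h3⟩
      have h4 : R b a := by
        rcases h1 a with h5 | h5
        · exact absurd h5 (h.irrefl a)
        · exact h5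
      exact hT ⟨a, b, w, h.symm _ _ h4, h3, h2⟩

/-- a walk of length at most three -/
def Wk (R : ℕ → ℕ → Prop) (u v : ℕ) : Prop :=
  u = v ∨ R u v ∨ (∃ a, R u a ∧ R a v) ∨ ∃ a b, R u a ∧ R a b ∧ R b v

theorem Wk.refl (u : ℕ) : Wk R u u := Or.inl rfl

theorem Ln.no_tri (h : Ln R) {a b c : ℕ} (h1 : R a b) (h2 : R b c) : ¬ R a c := by
  intro h3
  rcases h.lam a b with h4 | h4 | h4
  · exact h4 c ⟨h3, h2⟩
  · exact h.irrefl b (h4 b h1)
  · exact h.irrefl a (h4 a (h.symm _ _ h1))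

theorem Ln.wk_symm (h : Ln R) {u v : ℕ} (h1 : Wk R u v) : Wk R v u := by
  have s := h.symm
  rcases h1 with h1 | h1 | ⟨a, h1, h2⟩ | ⟨a, b, h1, h2, h3⟩
  · exact Or.inl h1.symm
  · exact Or.inr (Or.inl (s _ _ h1))
  · exact Or.inr (Or.inr (Or.inl ⟨a, s _ _ h2, s _ _ h1⟩))
  · exact Or.inr (Or.inr (Or.inr ⟨b, a, s _ _ h3, s _ _ h2, s _ _ h1⟩))

theorem Ln.short (h : Ln R) {a b c d e : ℕ} (h1 : R a b) (h2 : R b c) (h3 : R c d) (h4 : R d e) :
    ∃ z, R a z ∧ R z e := by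
  have s := h.symm
  rcases h.lam b d with h5 | h5 | h5
  · exact absurd ⟨h2, s _ _ h3⟩ (h5 c)
  · exact ⟨d, s _ _ (h5 a (s _ _ h1)), h4⟩
  · exact ⟨b, h1, h5 e h4⟩

theorem Ln.wk_step (h : Ln R) {u v w : ℕ} (h1 : Wk R u v) (h2 : R v w) : Wk R u w := by
  rcases h1 with rfl | h1 | ⟨a, h1, h3⟩ | ⟨a, b, h1, h3, h4⟩
  · exact Or.inr (Or.inl h2)
  · exact Or.inr (Or.inr (Or.inl ⟨v, h1, h2⟩))
  · exact Or.inr (Or.inr (Or.inr ⟨a, v, h1, h3, h2⟩))
  · exact Or.inr (Or.inr (Or.inl (h.short h1 h3 h4 h2)))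

theorem Ln.wk_trans (h : Ln R) {u v w : ℕ} (h1 : Wk R u v) (h2 : Wk R v w) : Wk R u w := by
  rcases h2 with rfl | h2 | ⟨a, h2, h3⟩ | ⟨a, b, h2, h3, h4⟩
  · exact h1
  · exact h.wk_step h1 h2
  · exact h.wk_step (h.wk_step h1 h2) h3
  · exact h.wk_step (h.wk_step (h.wk_step h1 h2) h3) h4

/-- Connected graphs with laminar neighbourhoods. -/
structure Lc (R : ℕ → ℕ → Prop) : Prop where
  ln : Ln R
  conn : ∀ u v, Wk R u v

/-- the side of the parameter -/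
def Sd (R : ℕ → ℕ → Prop) (b u : ℕ) : Prop := u = b ∨ ∃ a, R b a ∧ R a u

/-- the order -/
def Lt (R : ℕ → ℕ → Prop) (b u w : ℕ) : Prop :=
  (Sd R b u ∧ ¬ Sd R b w ∧ R u w) ∨ (¬ Sd R b u ∧ Sd R b w ∧ ¬ R u w) ∨
  (Sd R b u ∧ Sd R b w ∧ (∀ z, R w z → R u z) ∧ ∃ z, R u z ∧ ¬ R w z) ∨
  (¬ Sd R b u ∧ ¬ Sd R b w ∧ (∀ z, R u z → R w z) ∧ ∃ z, R w z ∧ ¬ R u z)

variable {b : ℕ}

theorem Lc.side (h : Lc R) {u w : ℕ} (h1 : R u w) : Sd R b u ↔ ¬ Sd R b w := by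
  have s := h.ln.symm
  constructor
  · rintro (rfl | ⟨a, h2, h3⟩)
    · rintro (rfl | ⟨c, h4, h5⟩)
      · exact h.ln.irrefl _ h1
      · exact h.ln.no_tri h1 (s _ _ h5) h4
    · rintro (rfl | ⟨c, h4, h5⟩)
      · exact h.ln.no_tri h2 h3 (s _ _ h1)
      · rcases h.ln.lam a c with h6 | h6 | h6
        · exact h6 b ⟨s _ _ h2, s _ _ h4⟩
        · exact h.ln.no_tri (h6 u h3) h1 h5
        · exact h.ln.no_tri h3 h1 (h6 w h5)
  · intro hw
    by_contra hu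
    rcases h.conn b u with h2 | h2 | ⟨a, h2, h3⟩ | ⟨a, c, h2, h3, h4⟩
    · exact hu (Or.inl h2.symm)
    · exact hw (Or.inr ⟨u, h2, h1⟩)
    · exact hu (Or.inr ⟨a, h2, h3⟩)
    · exact hw (Or.inr (h.ln.short h2 h3 h4 h1))

theorem Lc.nest (h : Lc R) {u w : ℕ} (h1 : Sd R b u ↔ Sd R b w) :
    (∀ z, R u z → R w z) ∨ ∀ z, R w z → R u z := by
  have hc : (∀ a, ¬ (R u a ∧ R a w)) → u = w ∨ False := by
    intro h2
    rcases h.conn u w with h3 | h3 | ⟨a, h3, h4⟩ | ⟨a, c, h3, h4, h5⟩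
    · exact Or.inl h3
    · have := h.side (b := b) h3
      tauto
    · exact absurd ⟨h3, h4⟩ (h2 a)
    · have k1 := h.side (b := b) h3
      have k2 := h.side (b := b) h4
      have k3 := h.side (b := b) h5
      tauto
  rcases h.ln.lam u w with h2 | h2 | h2
  · rcases hc fun a ha => h2 a ⟨ha.1, h.ln.symm _ _ ha.2⟩ with h3 | h3
    · subst h3
      exact Or.inl fun z hz => hz
    · exact h3.elim
  · exact Or.inl h2
  · exact Or.inr h2

theorem lt_irr (u : ℕ) : ¬ Lt R b u u := by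
  rintro (h | h | h | h)
  · exact h.2.1 h.1
  · exact h.1 h.2.1
  · obtain ⟨-, -, -, z, h1, h2⟩ := h
    exact h2 h1
  · obtain ⟨-, -, -, z, h1, h2⟩ := h
    exact h2 h1

/-- on the side of the parameter -/
theorem lt_ss {u w : ℕ} (hu : Sd R b u) (hw : Sd R b w) :
    Lt R b u w ↔ (∀ z, R w z → R u z) ∧ ∃ z, R u z ∧ ¬ R w z := by
  unfold Lt
  simp [hu, hw]

theorem lt_nn {u w : ℕ} (hu : ¬ Sd R b u) (hw : ¬ Sd R b w) :
    Lt R b u w ↔ (∀ z, R u z → R w z) ∧ ∃ z, R w z ∧ ¬ R u z := by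
  unfold Lt
  simp [hu, hw]

theorem lt_sn {u w : ℕ} (hu : Sd R b u) (hw : ¬ Sd R b w) : Lt R b u w ↔ R u w := by
  unfold Lt
  simp [hu, hw]

theorem lt_ns {u w : ℕ} (hu : ¬ Sd R b u) (hw : Sd R b w) : Lt R b u w ↔ ¬ R u w := by
  unfold Lt
  simp [hu, hw]

theorem Lc.trans (h : Lc R) {u v w : ℕ} (h1 : Lt R b u v) (h2 : Lt R b v w) : Lt R b u w := by
  have s := h.ln.symm
  by_cases hu : Sd R b u <;> by_cases hv : Sd R b v <;> by_cases hw : Sd R b w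
  · rw [lt_ss hu hv] at h1
    rw [lt_ss hv hw] at h2
    rw [lt_ss hu hw]
    obtain ⟨h1, z, h3, h4⟩ := h1
    exact ⟨fun z hz => h1 z (h2.1 z hz), z, h3, fun h5 => h4 (h2.1 z h5)⟩
  · rw [lt_ss hu hv] at h1
    rw [lt_sn hv hw] at h2
    rw [lt_sn hu hw]
    exact h1.1 w h2
  · rw [lt_sn hu hv] at h1
    rw [lt_ns hv hw] at h2
    rw [lt_ss hu hw]
    have h3 : ¬ R w v := fun h => h2 (s _ _ h)
    rcases h.nest (b := b) (u := u) (w := w) ⟨fun _ => hw, fun _ => hu⟩ with h4 | h4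
    · exact absurd (h4 v h1) h3
    · exact ⟨h4, v, h1, h3⟩
  · rw [lt_sn hu hv] at h1
    rw [lt_nn hv hw] at h2
    rw [lt_sn hu hw]
    exact s _ _ (h2.1 u (s _ _ h1))
  · rw [lt_ns hu hv] at h1
    rw [lt_ss hv hw] at h2
    rw [lt_ns hu hw]
    exact fun h3 => h1 (s _ _ (h2.1 u (s _ _ h3)))
  · rw [lt_ns hu hv] at h1
    rw [lt_sn hv hw] at h2
    rw [lt_nn hu hw]
    have h3 : R w v := s _ _ h2
    rcases h.nest (b := b) (u := u) (w := w) ⟨fun h => absurd h hu, fun h => absurd h hw⟩ with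
      h4 | h4
    · exact ⟨h4, v, h3, h1⟩
    · exact absurd (h4 v h3) h1
  · rw [lt_nn hu hv] at h1
    rw [lt_ns hv hw] at h2
    rw [lt_ns hu hw]
    exact fun h3 => h2 (h1.1 w h3)
  · rw [lt_nn hu hv] at h1
    rw [lt_nn hv hw] at h2
    rw [lt_nn hu hw]
    obtain ⟨h2, z, h3, h4⟩ := h2
    exact ⟨fun z hz => h2 z (h1.1 z hz), z, h3, fun h5 => h4 (h1.1 z h5)⟩

theorem Lc.weak (h : Lc R) {u v w : ℕ} (h1 : Lt R b u w) : Lt R b u v ∨ Lt R b v w := by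
  have s := h.ln.symm
  by_contra hc
  push Not at hc
  obtain ⟨h2, h3⟩ := hc
  have hneg : ¬ Lt R b v u := fun h4 => h3 (h.trans h4 h1)
  by_cases hu : Sd R b u <;> by_cases hv : Sd R b v
  · rw [lt_ss hu hv] at h2
    rw [lt_ss hv hu] at hneg
    have he : ∀ z, R u z ↔ R v z := by
      rcases h.nest (b := b) (u := u) (w := v) ⟨fun _ => hv, fun _ => hu⟩ with h4 | h4
      · refine fun z => ⟨h4 z, fun hz => ?_⟩
        by_contra h5
        exact hneg ⟨h4, z, hz, h5⟩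
      · refine fun z => ⟨fun hz => ?_, h4 z⟩
        by_contra h5
        exact h2 ⟨h4, z, hz, h5⟩
    apply h3
    by_cases hw : Sd R b w
    · rw [lt_ss hu hw] at h1
      rw [lt_ss hv hw]
      obtain ⟨h5, z, h6, h7⟩ := h1
      exact ⟨fun z hz => (he z).1 (h5 z hz), z, (he z).1 h6, h7⟩
    · rw [lt_sn hu hw] at h1
      rw [lt_sn hv hw]
      exact (he w).1 h1
  · rw [lt_sn hu hv] at h2
    rw [lt_ns hv hu] at hneg
    exact hneg fun h4 => h2 (s _ _ h4)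
  · rw [lt_ns hu hv] at h2
    rw [lt_sn hv hu] at hneg
    exact h2 fun h4 => hneg (s _ _ h4)
  · rw [lt_nn hu hv] at h2
    rw [lt_nn hv hu] at hneg
    have he : ∀ z, R u z ↔ R v z := by
      rcases h.nest (b := b) (u := u) (w := v) ⟨fun h => absurd h hu, fun h => absurd h hv⟩ with
        h4 | h4
      · refine fun z => ⟨h4 z, fun hz => ?_⟩
        by_contra h5
        exact h2 ⟨h4, z, hz, h5⟩
      · refine fun z => ⟨fun hz => ?_, h4 z⟩
        by_contra h5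
        exact hneg ⟨h4, z, hz, h5⟩
    apply h3
    by_cases hw : Sd R b w
    · rw [lt_ns hu hw] at h1
      rw [lt_ns hv hw]
      exact fun h5 => h1 ((he w).2 h5)
    · rw [lt_nn hu hw] at h1
      rw [lt_nn hv hw]
      obtain ⟨h5, z, h6, h7⟩ := h1
      exact ⟨fun z hz => h5 z ((he z).2 hz), z, h6, fun h8 => h7 ((he z).2 h8)⟩

theorem Lc.dec (h : Lc R) {u w : ℕ} : R u w ↔
    (Sd R b u ∧ ¬ Sd R b w ∧ Lt R b u w) ∨ (¬ Sd R b u ∧ Sd R b w ∧ Lt R b w u) := by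
  constructor
  · intro h1
    have h2 := h.side (b := b) h1
    by_cases hu : Sd R b u
    · have hw := h2.1 hu
      exact Or.inl ⟨hu, hw, (lt_sn hu hw).2 h1⟩
    · have hw : Sd R b w := by
        by_contra hw
        exact hu (h2.2 hw)
      exact Or.inr ⟨hu, hw, (lt_sn hw hu).2 (h.ln.symm _ _ h1)⟩
  · rintro (⟨hu, hw, h1⟩ | ⟨hu, hw, h1⟩)
    · exact (lt_sn hu hw).1 h1
    · exact h.ln.symm _ _ ((lt_sn hw hu).1 h1)

end Pool.Agent.Y558.VCD
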