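import Pool.Agent.Y558.VCD.TreeA
import Pool.Agent.Y558.VCD.Gra

set_option autoImplicit false
set_option linter.unusedVariables false

/-! Graphs of VC-dimension one: codings by generalised sums. -/

namespace Pool.Agent.Y558.VCD

open Set
open Pool.Agent.H533R2.VO (RS RIso)
open Pool.Agent.H533R2.VS
open Pool.Agent.TH425.FF (PCanon PExp FlipS flip_all pexp_vcu pexp_coan pexp_inv cun_vcu cun_coan
  cun_inv)

/-- structures with unary relations only are finite flips -/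
theorem flip_un {b : ℕ → ℕ} {y : RS b} (h2 : ∀ i, b i = 2 → ∀ t, y i t = false)
    (h1 : ∀ i, b i ≠ 2 → b i = 1) : FlipS y := by
  refine ⟨⊥, 1, fun _ => 0, fun _ _ _ => false, bot_clique, fun i hi u v _ _ => h2 i hi _,
    fun i hi t _ j l => Or.inl ?_⟩
  have := h1 i hi
  have e : j = l := Fin.ext (by
    have := j.2
    have := l.2
    omega)
  rw [e]

/-! ### Complete multipartite graphs -/

/-- arities -/
def bM : ℕ → ℕ
  | 0 => 2
  | _ + 1 => 1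

theorem bM_pos (i : ℕ) : 0 < bM i := by
  rcases i with _ | i <;> simp [bM]

section mul

variable {a : ℕ → ℕ} (iR : ℕ)

def cM : (i : ℕ) → List ℕ → RS a → (Fin (bM i) → ℕ) → Prop
  | 0 => fun _ x (t : Fin 2 → ℕ) => ¬ Rr iR x (t 0) (t 1)
  | j + 1 => fun _ x (t : Fin 1 → ℕ) => j ≠ iR ∧ Uu j x (t 0)

def dM : (i : ℕ) → List ℕ → RS bM → (Fin (a i) → ℕ) → Prop := fun i _ z t =>
  (i = iR ∧ ∃ h : a i = 2, ¬ Rr 0 z (t ⟨0, by omega⟩) (t ⟨1, by omega⟩)) ∨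
  (i ≠ iR ∧ ∃ h : a i = 1, Uu (i + 1) z (t ⟨0, by omega⟩)) ∨
  (i ≠ iR ∧ a i = 0 ∧ ∃ w, Uu (i + 1) z w)

theorem nc_cM (i : ℕ) : Nc (cM (a := a) iR i) := by
  rcases i with _ | j
  · exact (Nc.bin iR (fun v : Fin 2 → ℕ => v 0) (fun v => v 1) (fun _ _ => rfl)
      fun _ _ => rfl).not
  · exact (Nc.const _).and (Nc.un j (fun v : Fin 1 → ℕ => v 0) fun _ _ => rfl)

theorem nc_dM (i : ℕ) : Nc (dM (a := a) iR i) := by
  refine Nc.or ((Nc.const _).and (nc_exh fun h => ?_)) (Nc.or ((Nc.const _).and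
    (nc_exh fun h => ?_)) ((Nc.const _).and ((Nc.const _).and ?_)))
  · exact (Nc.bin 0 (fun t : Fin (a i) → ℕ => t ⟨0, by omega⟩) (fun t => t ⟨1, by omega⟩)
        (fun _ _ => rfl) fun _ _ => rfl).not
  · exact Nc.un (i + 1) (fun t : Fin (a i) → ℕ => t ⟨0, by omega⟩) fun _ _ => rfl
  · exact Nc.ex (Nc.un (i + 1) (fun v : (Fin (a i) → ℕ) × ℕ => v.2) fun _ _ => rfl)

theorem pc_M : PCanon (mk (cM (a := a) iR)) (mk (dM (a := a) iR)) :=
  pcanon (nc_cM iR) (nc_dM iR)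

variable {iR} {x : RS a} {p : List ℕ}

theorem cM0 {u v : ℕ} : mk (cM iR) p x 0 (p2 u v) = true ↔ ¬ Rr iR x u v := by
  rw [mk_iff]
  exact Iff.rfl

theorem uuM {j w : ℕ} : Uu (j + 1) (mk (cM iR) p x) w ↔ (j ≠ iR ∧ Uu j x w) := by
  unfold Uu
  rw [mk_iff]
  exact Iff.rfl

theorem sumM (hx : Mul (Rr iR x)) :
    IsSum 0 (fun _ => false) FlipS FlipS (mk (cM iR) p x) where
  refl := fun u => cM0.2 (hx.irrefl u)
  symm := fun u v h => cM0.2 fun h' => cM0.1 h (hx.symm _ _ h')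
  trans := fun u v w h h' => cM0.2 (hx.trans u v w (cM0.1 h) (cM0.1 h'))
  inside := fun i hi _ t _ j l => by
    rcases i with _ | i
    · exact absurd rfl hi
    · have e : j = l := Fin.ext (by
        have h1 := j.2
        have h2 := l.2
        simp only [bM] at h1 h2
        omega)
      rw [e]
      exact cM0.2 (hx.irrefl _)
  across := fun i _ h => absurd h (by decide)
  blocks := fun u e _ _ => flip_un (fun i hi t => by
    rcases i with _ | i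
    · simp
    · simp [bM] at hi) fun i hi => by
      rcases i with _ | i
      · exact absurd rfl hi
      · rfl
  index := fun e _ _ => flip_un (fun i hi t => by simp) fun i hi => by
      rcases i with _ | i
      · exact absurd rfl hi
      · rfl

theorem decM (hR : a iR = 2) (ha : ∀ i, i ≠ iR → a i ≤ 1) (q : List ℕ) :
    mk (dM iR) q (mk (cM iR) p x) = x := by
  funext i t
  rw [Bool.eq_iff_iff, mk_iff]
  show (i = iR ∧ ∃ h : a i = 2, _) ∨ (i ≠ iR ∧ ∃ h : a i = 1, _) ∨ (i ≠ iR ∧ a i = 0 ∧ _) ↔ _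
  by_cases hi : i = iR
  · subst hi
    have h1 : x i t = true ↔ Rr i x (t ⟨0, by omega⟩) (t ⟨1, by omega⟩) := by
      unfold Rr
      rw [← t_eq2 hR t]
    rw [h1]
    have h2 : Rr 0 (mk (cM i) p x) (t ⟨0, by omega⟩) (t ⟨1, by omega⟩) ↔
        ¬ Rr i x (t ⟨0, by omega⟩) (t ⟨1, by omega⟩) := cM0
    constructor
    · rintro (⟨-, h, h3⟩ | h | h)
      · by_contra h4
        exact h3 (h2.2 h4)
      · exact absurd rfl h.1
      · exact absurd rfl h.1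
    · intro h3
      exact Or.inl ⟨rfl, hR, fun h4 => h2.1 h4 h3⟩
  · have h1 := ha i hi
    have h2 : a i = 0 ∨ a i = 1 := by omega
    rcases h2 with h2 | h2
    · have h3 : ∀ w, t = fun _ => w := fun w => by
        funext j
        exact absurd j.2 (by omega)
      constructor
      · rintro (h | ⟨-, h, -⟩ | ⟨-, -, w, hw⟩)
        · exact absurd h.1 hi
        · omega
        · rw [uuM] at hw
          rw [h3 w]
          exact hw.2
      · intro h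
        refine Or.inr (Or.inr ⟨hi, h2, 0, uuM.2 ⟨hi, ?_⟩⟩)
        rw [h3 0] at h
        exact h
    · constructor
      · rintro (h | ⟨-, h, h3⟩ | ⟨-, h, -⟩)
        · exact absurd h.1 hi
        · rw [uuM] at h3
          rw [t_eq1 h2 t]
          exact h3.2
        · omega
      · intro h
        refine Or.inr (Or.inl ⟨hi, h2, uuM.2 ⟨hi, ?_⟩⟩)
        rw [t_eq1 h2 t] at h
        exact h

end mul

theorem vcu_mul {a : ℕ → ℕ} {iR : ℕ} (hR : a iR = 2) (ha : ∀ i, i ≠ iR → a i ≤ 1) :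
    ∃ V : RS a → Prop, VCu V ∧ Coan V ∧ Inv V ∧ ∀ x : RS a, Mul (Rr iR x) → V x := by
  have h1 : VCu (IsSum 0 (fun _ => false) FlipS FlipS : RS bM → Prop) :=
    vs_clo bM bM_pos 0 rfl _ FlipS FlipS (flip_all bM).1 (flip_all bM).1
  have h2 : Coan (IsSum 0 (fun _ => false) FlipS FlipS : RS bM → Prop) :=
    vs_kis bM 0 _ FlipS FlipS (flip_all bM).2.1 (flip_all bM).2.1
  have h3 : Inv (IsSum 0 (fun _ => false) FlipS FlipS : RS bM → Prop) :=
    vs_nis bM 0 _ FlipS FlipS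
  refine ⟨PExp (mk (cM iR)) (mk (dM iR)) (IsSum 0 (fun _ => false) FlipS FlipS),
    pexp_vcu (pc_M iR) h1 h2 h3, pexp_coan (pc_M iR) h2, pexp_inv (pc_M iR) h3, fun x hx => ?_⟩
  exact ⟨[], sumM hx, decM hR ha _⟩

/-! ### Connected graphs with laminar neighbourhoods -/

/-- arities of the disconnected graphs -/
def bL : ℕ → ℕ
  | 0 => 2
  | 1 => 2
  | _ + 2 => 1

theorem bL_pos (i : ℕ) : 0 < bL i := by
  rcases i with _ | _ | i <;> simp [bL]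

/-- arities of the orders -/
def bO : ℕ → ℕ
  | 0 => 2
  | _ + 1 => 1

section conn

theorem nc_Sd {a : ℕ → ℕ} {i : ℕ} : Nc fun (_ : List ℕ) (x : RS a) (v : ℕ × ℕ) =>
    Sd (Rr i x) v.1 v.2 :=
  (Nc.eq (fun v : ℕ × ℕ => v.2) (fun v => v.1) (fun _ _ => rfl) fun _ _ => rfl).or
    (Nc.ex ((Nc.bin i (fun v : (ℕ × ℕ) × ℕ => v.1.1) (fun v => v.2) (fun _ _ => rfl)
      fun _ _ => rfl).and (Nc.bin i (fun v : (ℕ × ℕ) × ℕ => v.2) (fun v => v.1.2)
      (fun _ _ => rfl) fun _ _ => rfl)))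

theorem nc_Lt {a : ℕ → ℕ} {i : ℕ} : Nc fun (_ : List ℕ) (x : RS a) (v : (ℕ × ℕ) × ℕ) =>
    Lt (Rr i x) v.1.1 v.1.2 v.2 := by
  have s1 : Nc fun (_ : List ℕ) (x : RS a) (v : (ℕ × ℕ) × ℕ) => Sd (Rr i x) v.1.1 v.1.2 :=
    nc_Sd.sub (fun v : (ℕ × ℕ) × ℕ => (v.1.1, v.1.2)) fun _ _ => rfl
  have s2 : Nc fun (_ : List ℕ) (x : RS a) (v : (ℕ × ℕ) × ℕ) => Sd (Rr i x) v.1.1 v.2 :=
    nc_Sd.sub (fun v : (ℕ × ℕ) × ℕ => (v.1.1, v.2)) fun _ _ => rfl
  have r : Nc fun (_ : List ℕ) (x : RS a) (v : (ℕ × ℕ) × ℕ) => Rr i x v.1.2 v.2 :=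
    Nc.bin i (fun v : (ℕ × ℕ) × ℕ => v.1.2) (fun v => v.2) (fun _ _ => rfl) fun _ _ => rfl
  have r1 : Nc fun (_ : List ℕ) (x : RS a) (v : ((ℕ × ℕ) × ℕ) × ℕ) => Rr i x v.1.1.2 v.2 :=
    Nc.bin i (fun v : ((ℕ × ℕ) × ℕ) × ℕ => v.1.1.2) (fun v => v.2) (fun _ _ => rfl)
      fun _ _ => rfl
  have r2 : Nc fun (_ : List ℕ) (x : RS a) (v : ((ℕ × ℕ) × ℕ) × ℕ) => Rr i x v.1.2 v.2 :=
    Nc.bin i (fun v : ((ℕ × ℕ) × ℕ) × ℕ => v.1.2) (fun v => v.2) (fun _ _ => rfl)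
      fun _ _ => rfl
  exact (s1.and (s2.not.and r)).or ((s1.not.and (s2.and r.not)).or
    ((s1.and (s2.and ((r2.imp r1).all.and (r1.and r2.not).ex))).or
      (s1.not.and (s2.not.and ((r1.imp r2).all.and (r2.and r1.not).ex)))))

/-- order and side -/
def cO : (i : ℕ) → List ℕ → RS bL → (Fin (bO i) → ℕ) → Prop
  | 0 => fun p x (t : Fin 2 → ℕ) => ∃ b, p.head? = some b ∧ Lt (Rr 1 x) b (t 0) (t 1)
  | 1 => fun p x (t : Fin 1 → ℕ) => ∃ b, p.head? = some b ∧ Sd (Rr 1 x) b (t 0)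
  | j + 2 => fun _ x (t : Fin 1 → ℕ) => Uu (j + 2) x (t 0)

def dO : (i : ℕ) → List ℕ → RS bO → (Fin (bL i) → ℕ) → Prop
  | 0 => fun _ _ _ => False
  | 1 => fun _ z (t : Fin 2 → ℕ) => (Uu 1 z (t 0) ∧ ¬ Uu 1 z (t 1) ∧ Rr 0 z (t 0) (t 1)) ∨
      (¬ Uu 1 z (t 0) ∧ Uu 1 z (t 1) ∧ Rr 0 z (t 1) (t 0))
  | j + 2 => fun _ z (t : Fin 1 → ℕ) => Uu (j + 2) z (t 0)

theorem nc_cO (i : ℕ) : Nc (cO i) := by
  rcases i with _ | _ | j
  · refine Nc.par (Φ := fun _ (x : RS bL) (v : (Fin 2 → ℕ) × ℕ) =>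
      Lt (Rr 1 x) v.2 (v.1 0) (v.1 1)) ?_
    exact nc_Lt.sub (fun v : (Fin 2 → ℕ) × ℕ => ((v.2, v.1 0), v.1 1)) fun _ _ => rfl
  · refine Nc.par (Φ := fun _ (x : RS bL) (v : (Fin 1 → ℕ) × ℕ) => Sd (Rr 1 x) v.2 (v.1 0)) ?_
    exact nc_Sd.sub (fun v : (Fin 1 → ℕ) × ℕ => (v.2, v.1 0)) fun _ _ => rfl
  · exact Nc.un (j + 2) (fun v : Fin 1 → ℕ => v 0) fun _ _ => rfl

theorem nc_dO (i : ℕ) : Nc (dO i) := by
  rcases i with _ | _ | j
  · exact Nc.const False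
  · have u0 : Nc fun (_ : List ℕ) (z : RS bO) (t : Fin 2 → ℕ) => Uu 1 z (t 0) :=
      Nc.un 1 (fun v : Fin 2 → ℕ => v 0) fun _ _ => rfl
    have u1 : Nc fun (_ : List ℕ) (z : RS bO) (t : Fin 2 → ℕ) => Uu 1 z (t 1) :=
      Nc.un 1 (fun v : Fin 2 → ℕ => v 1) fun _ _ => rfl
    have r0 : Nc fun (_ : List ℕ) (z : RS bO) (t : Fin 2 → ℕ) => Rr 0 z (t 0) (t 1) :=
      Nc.bin 0 (fun v : Fin 2 → ℕ => v 0) (fun v => v 1) (fun _ _ => rfl) fun _ _ => rfl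
    have r1 : Nc fun (_ : List ℕ) (z : RS bO) (t : Fin 2 → ℕ) => Rr 0 z (t 1) (t 0) :=
      Nc.bin 0 (fun v : Fin 2 → ℕ => v 1) (fun v => v 0) (fun _ _ => rfl) fun _ _ => rfl
    exact (u0.and (u1.not.and r0)).or (u0.not.and (u1.and r1))
  · exact Nc.un (j + 2) (fun v : Fin 1 → ℕ => v 0) fun _ _ => rfl

theorem pc_O : PCanon (mk cO) (mk dO) := pcanon nc_cO nc_dO

variable {x : RS bL} {b : ℕ}

theorem cO0 {u v : ℕ} : mk cO [b] x 0 (p2 u v) = true ↔ Lt (Rr 1 x) b u v := by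
  rw [mk_iff]
  show (∃ b', [b].head? = some b' ∧ _) ↔ _
  simp only [List.head?_cons, Option.some.injEq, exists_eq_left']
  exact Iff.rfl

theorem uuO1 {w : ℕ} : Uu 1 (mk cO [b] x) w ↔ Sd (Rr 1 x) b w := by
  unfold Uu
  rw [mk_iff]
  show (∃ b', [b].head? = some b' ∧ _) ↔ _
  simp only [List.head?_cons, Option.some.injEq, exists_eq_left']

theorem uuO2 {j w : ℕ} : Uu (j + 2) (mk cO [b] x) w ↔ Uu (j + 2) x w := by
  unfold Uu
  rw [mk_iff]
  exact Iff.rfl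

theorem ordO (hx : Lc (Rr 1 x)) : IsOSum 0 FlipS (mk cO [b] x) where
  irrefl := fun u => by
    rw [← Bool.not_eq_true, cO0]
    exact lt_irr u
  trans := fun u v w h1 h2 => cO0.2 (hx.trans (cO0.1 h1) (cO0.1 h2))
  weak := fun u v w h => (hx.weak (cO0.1 h)).imp cO0.2 cO0.2
  inside := fun i hi t _ j l => by
    rcases i with _ | i
    · exact absurd rfl hi
    · have e : j = l := Fin.ext (by
        have h1 := j.2
        have h2 := l.2
        simp only [bO] at h1 h2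
        omega)
      rw [e, ← Bool.not_eq_true, cO0]
      exact lt_irr _
  blocks := fun u e _ _ => flip_un (fun i hi t => by
    rcases i with _ | i
    · simp
    · simp [bO] at hi) fun i hi => by
      rcases i with _ | i
      · exact absurd rfl hi
      · rfl

theorem decO (hx : Lc (Rr 1 x)) (h0 : ∀ t, x 0 t = false) (q : List ℕ) :
    mk dO q (mk cO [b] x) = x := by
  funext i t
  rw [Bool.eq_iff_iff, mk_iff]
  rcases i with _ | _ | j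
  · rw [h0]
    simp [dO]
  · show (Uu 1 _ (t ⟨0, Nat.zero_lt_two⟩) ∧ ¬ Uu 1 _ (t ⟨1, Nat.one_lt_two⟩) ∧
      Rr 0 _ (t ⟨0, Nat.zero_lt_two⟩) (t ⟨1, Nat.one_lt_two⟩)) ∨ (¬ Uu 1 _ (t ⟨0, Nat.zero_lt_two⟩) ∧
      Uu 1 _ (t ⟨1, Nat.one_lt_two⟩) ∧ Rr 0 _ (t ⟨1, Nat.one_lt_two⟩) (t ⟨0, Nat.zero_lt_two⟩)) ↔ _
    unfold Rr
    rw [uuO1, uuO1, cO0, cO0, ← hx.dec]
    unfold Rr
    rw [← t_eq2 (n := bL 1) rfl t]
  · show Uu (j + 2) _ (t ⟨0, Nat.one_pos⟩) ↔ _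
    rw [uuO2]
    unfold Uu
    rw [← t_eq1 (n := bL (j + 2)) rfl t]

end conn

/-- the class of the connected graphs -/
def VL : RS bL → Prop := PExp (mk cO) (mk dO) (IsOSum 0 FlipS)

theorem VL_all : VCu VL ∧ Coan VL ∧ Inv VL := by
  have h1 : VCu (IsOSum 0 FlipS : RS bO → Prop) := vs_ord bO 0 rfl FlipS (flip_all bO).1
  have h2 := vs_kos bO 0 FlipS (flip_all bO).2.1
  exact ⟨pexp_vcu pc_O h1 h2.1 h2.2, pexp_coan pc_O h2.1, pexp_inv pc_O h2.2⟩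

theorem VL_of {x : RS bL} (hx : Lc (Rr 1 x)) (h0 : ∀ t, x 0 t = false) : VL x :=
  ⟨[0], ordO hx, decO hx h0 _⟩

/-! ### Graphs with laminar neighbourhoods -/

section lam

variable {a : ℕ → ℕ} (iR : ℕ)

def cL : (i : ℕ) → List ℕ → RS a → (Fin (bL i) → ℕ) → Prop
  | 0 => fun _ x (t : Fin 2 → ℕ) => Wk (Rr iR x) (t 0) (t 1)
  | 1 => fun _ x (t : Fin 2 → ℕ) => Rr iR x (t 0) (t 1)
  | j + 2 => fun _ x (t : Fin 1 → ℕ) => j ≠ iR ∧ Uu j x (t 0)

def dL : (i : ℕ) → List ℕ → RS bL → (Fin (a i) → ℕ) → Prop := fun i _ z t =>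
  (i = iR ∧ ∃ h : a i = 2, Rr 1 z (t ⟨0, by omega⟩) (t ⟨1, by omega⟩)) ∨
  (i ≠ iR ∧ ∃ h : a i = 1, Uu (i + 2) z (t ⟨0, by omega⟩)) ∨
  (i ≠ iR ∧ a i = 0 ∧ ∃ w, Uu (i + 2) z w)

theorem nc_Wk : Nc fun (_ : List ℕ) (x : RS a) (v : ℕ × ℕ) => Wk (Rr iR x) v.1 v.2 := by
  have r : ∀ {E : Type} [Env E] (f g : E → ℕ), (∀ σ v, f (Env.sm σ v) = Env.sm σ (f v)) →
      (∀ σ v, g (Env.sm σ v) = Env.sm σ (g v)) →
      Nc fun (_ : List ℕ) (x : RS a) (v : E) => Rr iR x (f v) (g v) := fun f g hf hg =>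
    Nc.bin iR f g hf hg
  have e0 : Nc fun (_ : List ℕ) (x : RS a) (v : ℕ × ℕ) => v.1 = v.2 :=
    Nc.eq (fun v : ℕ × ℕ => v.1) (fun v => v.2) (fun _ _ => rfl) fun _ _ => rfl
  have e1 : Nc fun (_ : List ℕ) (x : RS a) (v : ℕ × ℕ) => Rr iR x v.1 v.2 :=
    r (fun v : ℕ × ℕ => v.1) (fun v => v.2) (fun _ _ => rfl) fun _ _ => rfl
  have e2 : Nc fun (_ : List ℕ) (x : RS a) (v : ℕ × ℕ) => ∃ w, Rr iR x v.1 w ∧ Rr iR x w v.2 :=
    Nc.ex ((r (fun v : (ℕ × ℕ) × ℕ => v.1.1) (fun v => v.2) (fun _ _ => rfl) fun _ _ => rfl).and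
      (r (fun v : (ℕ × ℕ) × ℕ => v.2) (fun v => v.1.2) (fun _ _ => rfl) fun _ _ => rfl))
  have e3 : Nc fun (_ : List ℕ) (x : RS a) (v : ℕ × ℕ) => ∃ w w', Rr iR x v.1 w ∧
      Rr iR x w w' ∧ Rr iR x w' v.2 :=
    Nc.ex (Nc.ex ((r (fun v : ((ℕ × ℕ) × ℕ) × ℕ => v.1.1.1) (fun v => v.1.2) (fun _ _ => rfl)
      fun _ _ => rfl).and ((r (fun v : ((ℕ × ℕ) × ℕ) × ℕ => v.1.2) (fun v => v.2)
      (fun _ _ => rfl) fun _ _ => rfl).and
      (r (fun v : ((ℕ × ℕ) × ℕ) × ℕ => v.2) (fun v => v.1.1.2) (fun _ _ => rfl)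
        fun _ _ => rfl))))
  exact e0.or (e1.or (e2.or e3))

theorem nc_cL (i : ℕ) : Nc (cL (a := a) iR i) := by
  rcases i with _ | _ | j
  · exact (nc_Wk iR).sub (fun v : Fin 2 → ℕ => (v 0, v 1)) fun _ _ => rfl
  · exact Nc.bin iR (fun v : Fin 2 → ℕ => v 0) (fun v => v 1) (fun _ _ => rfl) fun _ _ => rfl
  · exact (Nc.const _).and (Nc.un j (fun v : Fin 1 → ℕ => v 0) fun _ _ => rfl)

theorem nc_dL (i : ℕ) : Nc (dL (a := a) iR i) := by
  refine Nc.or ((Nc.const _).and (nc_exh fun h => ?_)) (Nc.or ((Nc.const _).and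
    (nc_exh fun h => ?_)) ((Nc.const _).and ((Nc.const _).and ?_)))
  · exact Nc.bin 1 (fun t : Fin (a i) → ℕ => t ⟨0, by omega⟩) (fun t => t ⟨1, by omega⟩)
        (fun _ _ => rfl) fun _ _ => rfl
  · exact Nc.un (i + 2) (fun t : Fin (a i) → ℕ => t ⟨0, by omega⟩) fun _ _ => rfl
  · exact Nc.ex (Nc.un (i + 2) (fun v : (Fin (a i) → ℕ) × ℕ => v.2) fun _ _ => rfl)

theorem pc_L : PCanon (mk (cL (a := a) iR)) (mk (dL (a := a) iR)) :=
  pcanon (nc_cL iR) (nc_dL iR)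

variable {iR} {x : RS a} {p : List ℕ}

theorem cL0 {u v : ℕ} : mk (cL iR) p x 0 (p2 u v) = true ↔ Wk (Rr iR x) u v := by
  rw [mk_iff]
  exact Iff.rfl

theorem cL1 {t : Fin (bL 1) → ℕ} : mk (cL iR) p x 1 t = true ↔
    Rr iR x (t ⟨0, Nat.zero_lt_two⟩) (t ⟨1, Nat.one_lt_two⟩) := by
  rw [mk_iff]
  exact Iff.rfl

theorem uuL {j w : ℕ} : Uu (j + 2) (mk (cL iR) p x) w ↔ (j ≠ iR ∧ Uu j x w) := by
  unfold Uu
  rw [mk_iff]
  exact Iff.rfl

theorem decL (hR : a iR = 2) (ha : ∀ i, i ≠ iR → a i ≤ 1) (q : List ℕ) :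
    mk (dL iR) q (mk (cL iR) p x) = x := by
  funext i t
  rw [Bool.eq_iff_iff, mk_iff]
  show (i = iR ∧ ∃ h : a i = 2, _) ∨ (i ≠ iR ∧ ∃ h : a i = 1, _) ∨ (i ≠ iR ∧ a i = 0 ∧ _) ↔ _
  by_cases hi : i = iR
  · subst hi
    have h1 : x i t = true ↔ Rr i x (t ⟨0, by omega⟩) (t ⟨1, by omega⟩) := by
      unfold Rr
      rw [← t_eq2 hR t]
    rw [h1]
    have h2 : Rr 1 (mk (cL i) p x) (t ⟨0, by omega⟩) (t ⟨1, by omega⟩) ↔
        Rr i x (t ⟨0, by omega⟩) (t ⟨1, by omega⟩) := cL1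
    constructor
    · rintro (⟨-, h, h3⟩ | h | h)
      · exact h2.1 h3
      · exact absurd rfl h.1
      · exact absurd rfl h.1
    · intro h3
      exact Or.inl ⟨rfl, hR, h2.2 h3⟩
  · have h1 := ha i hi
    have h2 : a i = 0 ∨ a i = 1 := by omega
    rcases h2 with h2 | h2
    · have h3 : ∀ w, t = fun _ => w := fun w => by
        funext j
        exact absurd j.2 (by omega)
      constructor
      · rintro (h | ⟨-, h, -⟩ | ⟨-, -, w, hw⟩)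
        · exact absurd h.1 hi
        · omega
        · rw [uuL] at hw
          rw [h3 w]
          exact hw.2
      · intro h
        refine Or.inr (Or.inr ⟨hi, h2, 0, uuL.2 ⟨hi, ?_⟩⟩)
        rw [h3 0] at h
        exact h
    · constructor
      · rintro (h | ⟨-, h, h3⟩ | ⟨-, h, -⟩)
        · exact absurd h.1 hi
        · rw [uuL] at h3
          rw [t_eq1 h2 t]
          exact h3.2
        · omega
      · intro h
        refine Or.inr (Or.inl ⟨hi, h2, uuL.2 ⟨hi, ?_⟩⟩)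
        rw [t_eq1 h2 t] at h
        exact h

theorem sumL (hx : Ln (Rr iR x)) : IsSum 0 (fun _ => false) FlipS VL (mk (cL iR) p x) where
  refl := fun u => cL0.2 (Wk.refl u)
  symm := fun u v h => cL0.2 (hx.wk_symm (cL0.1 h))
  trans := fun u v w h h' => cL0.2 (hx.wk_trans (cL0.1 h) (cL0.1 h'))
  inside := fun i hi _ t ht j l => by
    rcases i with _ | _ | i
    · exact absurd rfl hi
    · rw [cL1] at ht
      have h1 : Wk (Rr iR x) (t ⟨0, Nat.zero_lt_two⟩) (t ⟨1, Nat.one_lt_two⟩) :=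
        Or.inr (Or.inl ht)
      have hj : ∀ j : Fin (bL 1), j = ⟨0, Nat.zero_lt_two⟩ ∨ j = ⟨1, Nat.one_lt_two⟩ := by
        rintro ⟨j, hj⟩
        have hj' : j < 2 := hj
        rcases (by omega : j = 0 ∨ j = 1) with rfl | rfl
        · exact Or.inl rfl
        · exact Or.inr rfl
      rw [cL0]
      rcases hj j with rfl | rfl <;> rcases hj l with rfl | rfl
      · exact Wk.refl _
      · exact h1
      · exact hx.wk_symm h1
      · exact Wk.refl _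
    · have e : j = l := Fin.ext (by
        have h1 := j.2
        have h2 := l.2
        simp only [bL] at h1 h2
        omega)
      rw [e]
      exact cL0.2 (Wk.refl _)
  across := fun i _ h => absurd h (by decide)
  blocks := fun u e he hblk => by
    have hblk' : ∀ z, Wk (Rr iR x) u z ↔ ∃ n, e n = z := fun z => cL0.symm.trans (hblk z)
    have hin : ∀ n, Wk (Rr iR x) u (e n) := fun n => (hblk' _).2 ⟨n, rfl⟩
    have hR1 : ∀ m n, Rr 1 (fun (i : ℕ) (v : Fin (bL i) → ℕ) =>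
        if i ≠ 0 ∧ (fun _ => false : ℕ → Bool) i = false then mk (cL iR) p x i (e ∘ v) else false)
        m n ↔ Rr iR x (e m) (e n) := by
      intro m n
      show (if (1 : ℕ) ≠ 0 ∧ (fun _ => false : ℕ → Bool) 1 = false then
        mk (cL iR) p x 1 (e ∘ p2 m n) else false) = true ↔ _
      rw [if_pos ⟨Nat.one_ne_zero, rfl⟩, cL1]
      exact Iff.rfl
    refine VL_of ?_ (fun t => by simp)
    refine ⟨⟨fun m n h => ?_, fun m h => ?_, fun m n => ?_⟩, fun m n => ?_⟩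
    · rw [hR1] at h ⊢
      exact hx.symm _ _ h
    · rw [hR1] at h
      exact hx.irrefl _ h
    · rcases hx.lam (e m) (e n) with h | h | h
      · left
        intro w hw
        rw [hR1, hR1] at hw
        exact h _ hw
      · right; left
        intro w hw
        rw [hR1] at hw ⊢
        exact h _ hw
      · right; right
        intro w hw
        rw [hR1] at hw ⊢
        exact h _ hw
    · have h1 : Wk (Rr iR x) (e m) (e n) := hx.wk_trans (hx.wk_symm (hin m)) (hin n)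
      have hg : ∀ {m' z}, Rr iR x (e m') z → ∃ k, e k = z := fun {m' z} h =>
        (hblk' z).1 (hx.wk_step (hin m') h)
      rcases h1 with h1 | h1 | ⟨c, h1, h2⟩ | ⟨c, d, h1, h2, h3⟩
      · exact Or.inl (he h1)
      · exact Or.inr (Or.inl ((hR1 _ _).2 h1))
      · obtain ⟨k, rfl⟩ := hg h1
        exact Or.inr (Or.inr (Or.inl ⟨k, (hR1 _ _).2 h1, (hR1 _ _).2 h2⟩))
      · obtain ⟨k, rfl⟩ := hg h1
        obtain ⟨k', rfl⟩ := hg h2
        exact Or.inr (Or.inr (Or.inr ⟨k, k', (hR1 _ _).2 h1, (hR1 _ _).2 h2, (hR1 _ _).2 h3⟩))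
  index := fun e _ _ => flip_un (fun i hi t => by simp) fun i hi => by
      rcases i with _ | _ | i
      · exact absurd rfl hi
      · exact absurd rfl hi
      · rfl

end lam

theorem vcu_ln {a : ℕ → ℕ} {iR : ℕ} (hR : a iR = 2) (ha : ∀ i, i ≠ iR → a i ≤ 1) :
    ∃ V : RS a → Prop, VCu V ∧ Coan V ∧ Inv V ∧ ∀ x : RS a, Ln (Rr iR x) → V x := by
  obtain ⟨v1, v2, v3⟩ := VL_all
  have h1 : VCu (IsSum 0 (fun _ => false) FlipS VL : RS bL → Prop) :=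
    vs_clo bL bL_pos 0 rfl _ FlipS VL (flip_all bL).1 v1
  have h2 : Coan (IsSum 0 (fun _ => false) FlipS VL : RS bL → Prop) :=
    vs_kis bL 0 _ FlipS VL (flip_all bL).2.1 v2
  have h3 : Inv (IsSum 0 (fun _ => false) FlipS VL : RS bL → Prop) := vs_nis bL 0 _ FlipS VL
  refine ⟨PExp (mk (cL iR)) (mk (dL iR)) (IsSum 0 (fun _ => false) FlipS VL),
    pexp_vcu (pc_L iR) h1 h2 h3, pexp_coan (pc_L iR) h2, pexp_inv (pc_L iR) h3, fun x hx => ?_⟩
  exact ⟨[], sumL hx, decL hR ha _⟩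

end Pool.Agent.Y558.VCD
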