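import Pool.Agent.W889.FO.Pos
import Pool.Agent.Y558.VCD.Gcod

set_option autoImplicit false

/-! From classes of coded structures to first-order theories. -/

namespace Pool.Agent.Y558.VCD

open FirstOrder FirstOrder.Language
open Pool.Agent.W889.VC (BP Str Iso VCof bp_atom)
open Pool.Agent.W889.FO
open Pool.Agent.W889.FO.Pos
open Pool.Agent.H533R2.VS (VCu vs_plain)

theorem vcof_of {a : ℕ → ℕ} {V : Str a → Prop} (hV : VCu V) {K : Str a → Prop}
    (h : ∀ x, K x → V x) : VCof True (Iso (a := a)) K := by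
  intro B hB hi hK
  rcases vs_plain a V hV B hB hi (fun x hx => h x (hK x hx)) with ⟨f, hf⟩ | ⟨g, h1, h2, h3⟩
  · exact Or.inl ⟨f, hf⟩
  · exact Or.inr ⟨g, fun _ => h1, h2, h3⟩

/-- a theory satisfies the dichotomy if the class of its coded models does -/
theorem vaught_of_coded {L : FirstOrder.Language.{0, 0}} [L.IsRelational]
    [Countable (Σ n, L.Relations n)] (T : L.Theory)
    (h : ∀ (s : ℕ → Option (Σ n, L.Relations n)) (e : (Σ n, L.Relations n) → ℕ),
      (∀ R, s (e R) = some R) → (∀ i R, s i = some R → e R = i) →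
      VCof True (Iso (a := fun i => ar (s i)))
        (fun x => Nm x ∧ @Theory.Model L ℕ (dn e x) T)) : Vaught L T := by
  classical
  have hsc : Countable L.Sentence := countable_sentence
  obtain ⟨e, he⟩ := Countable.exists_injective_nat (Σ n, L.Relations n)
  let s : ℕ → Option (Σ n, L.Relations n) := fun i =>
    if h : ∃ R, e R = i then some h.choose else none
  have hse : ∀ R, s (e R) = some R := by
    intro R
    have h : ∃ R', e R' = e R := ⟨R, rfl⟩
    have h1 : s (e R) = some h.choose := dif_pos h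
    rw [h1, he h.choose_spec]
  have hes : ∀ i R, s i = some R → e R = i := by
    intro i R hs
    by_cases h : ∃ R', e R' = i
    · obtain ⟨R', rfl⟩ := h
      rw [hse] at hs
      rw [Option.some.inj hs]
    · have h1 : s i = none := dif_neg h
      rw [h1] at hs
      exact absurd hs (by simp)
  have hn : ∀ (n : ℕ) (R : L.Relations n), ar (s (e ⟨n, R⟩)) = n := fun n R => by
    rw [hse]
    rfl
  let B : Set (Str (fun i => ar (s i))) := {x | Nm x ∧ @Theory.Model L ℕ (dn e x) T}
  have hrel : ∀ (n : ℕ) (R : L.Relations n) (v : Fin n → ℕ)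
      (x : Str (fun i => ar (s i))), @Structure.RelMap L ℕ (dn e x) n R v ↔
        x (e ⟨n, R⟩) (fun j => v (Fin.cast (hn n R) j)) = true := by
    intro n R v x
    exact ⟨fun h1 => h1 (hse _), fun h1 _ => h1⟩
  have hbr : ∀ (n : ℕ) (R : L.Relations n) (v : Fin n → ℕ),
      BP (fun x : Str (fun i => ar (s i)) => @Structure.RelMap L ℕ (dn e x) n R v) := by
    intro n R v
    have h1 : Measurable fun x : Str (fun i => ar (s i)) =>
        x (e ⟨n, R⟩) (fun j => v (Fin.cast (hn n R) j)) :=
      (measurable_pi_apply _).comp (measurable_pi_apply (e ⟨n, R⟩))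
    have h2 : BP (fun x : Str (fun i => ar (s i)) =>
        x (e ⟨n, R⟩) (fun j => v (Fin.cast (hn n R) j)) = true) :=
      h1 (measurableSet_singleton true)
    exact h2.congr fun x => (hrel n R v x).symm
  have hB : MeasurableSet B := by
    have hT' : Countable T := Subtype.countable
    have h1 : BP (fun x : Str (fun i => ar (s i)) => Nm x ∧
        ∀ φ : T, @Sentence.Realize L ℕ (dn e x) φ.1) := by
      refine BP.and ?_ (BP.all fun φ => bp_sentence hbr φ.1)
      refine BP.all fun i => (BP.const _).imp (BP.all fun v => ?_)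
      have h1 : Measurable fun x : Str (fun i => ar (s i)) => x i v :=
        (measurable_pi_apply _).comp (measurable_pi_apply i)
      exact h1 (measurableSet_singleton false)
    refine (congrArg MeasurableSet (Set.ext fun x => ?_)).mp h1
    constructor
    · rintro ⟨h1, h2⟩
      exact ⟨h1, ax_iff.2 fun φ hφ => h2 ⟨φ, hφ⟩⟩
    · rintro ⟨h1, h2⟩
      exact ⟨h1, fun φ => ax_iff.1 h2 φ.1 φ.2⟩
  have hstep : ∀ x y : Str (fun i => ar (s i)), Iso x y → x ∈ B → y ∈ B := by
    rintro x y hxy ⟨h1, h2⟩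
    refine ⟨?_, (iso1 hxy).model h2⟩
    obtain ⟨σ, hσ⟩ := hxy
    intro i hs v
    have h3 := hσ i (fun j => σ.symm (v j))
    have h4 : (⇑σ ∘ fun j => σ.symm (v j)) = v := by
      funext j
      simp
    rw [h4] at h3
    rw [h3, h1 i hs]
  have hup : ∀ S : L.Structure ℕ, @Theory.Model L ℕ S T →
      ∃ x : Str (fun i => ar (s i)), x ∈ B ∧ SIso S (dn e x) := by
    intro S hS
    let x : Str (fun i => ar (s i)) := fun i => upo S (s i)
    have h1 : SIso S (dn e x) := by
      obtain ⟨f, -⟩ := siso_of (S := S) (S' := dn e x) (Equiv.refl ℕ) (fun n R v =>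
        dno_upo S R v (s (e ⟨n, R⟩)) (hse _))
      exact ⟨f⟩
    refine ⟨x, ⟨?_, h1.model hS⟩, h1⟩
    intro i hs v
    have : ∀ o (v : Fin (ar o) → ℕ), o = none → upo S o v = false := by
      rintro o v rfl
      rfl
    exact this _ _ hs
  rcases h s e hse hes B hB (fun x y h => ⟨hstep x y h, hstep y x h.symm⟩)
    (fun x hx => hx) with ⟨f, hf⟩ | ⟨g, h1, h2, h3⟩
  · left
    refine ⟨fun n => dn e (f n), fun S hS => ?_⟩
    obtain ⟨x, hx, hi⟩ := hup S hS
    obtain ⟨n, hn⟩ := hf x hx
    exact ⟨n, hi.trans (iso1 hn).symm⟩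
  · right
    refine ⟨fun c => dn e (g c), fun c => (h2 c).2, fun c d hcd =>
      h3 c d (iso2 hes (h2 c).1 (h2 d).1 hcd), fun n R v => ?_⟩
    have h4 : Continuous fun c => g c (e ⟨n, R⟩) (fun j => v (Fin.cast (hn n R) j)) :=
      (continuous_apply _).comp ((continuous_apply (e ⟨n, R⟩)).comp (h1 trivial))
    have h5 : IsClopen ((fun c => g c (e ⟨n, R⟩)
        (fun j => v (Fin.cast (hn n R) j))) ⁻¹' {true}) :=
      (isClopen_discrete {true}).preimage h4
    have h6 : {c : ℕ → Bool | @Structure.RelMap L ℕ (dn e (g c)) n R v} =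
        (fun c => g c (e ⟨n, R⟩) (fun j => v (Fin.cast (hn n R) j))) ⁻¹' {true} := by
      ext c
      exact hrel n R v (g c)
    rw [h6]
    exact h5

end Pool.Agent.Y558.VCD
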