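import Pool.Agent.Y558.VCD.Fo

set_option autoImplicit false
set_option linter.unusedVariables false

/-! VC dimension one: the union of the four classes. -/

namespace Pool.Agent.Y558.VCD

open Set
open Pool.Agent.H533R2.VO (RS RIso)
open Pool.Agent.H533R2.VS
open Pool.Agent.TH425.FF (PCanon PExp FlipS flip_all pexp_vcu pexp_coan pexp_inv cun_vcu cun_coan
  cun_inv)

/-- a class with the dichotomy -/
structure Good {a : ℕ → ℕ} (K : RS a → Prop) : Prop where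
  of ::
  ex : ∃ V : RS a → Prop, VCu V ∧ Coan V ∧ Inv V ∧ ∀ x, K x → V x

theorem Good.un {a : ℕ → ℕ} {K : ℕ → RS a → Prop} (h : ∀ n, Good (K n)) :
    Good fun x => ∃ n, K n x := by
  have h' := fun n => (h n).ex
  choose V h1 h2 h3 h4 using h'
  exact ⟨fun x => ∃ n, V n x, cun_vcu V h1 h2 h3, cun_coan V h2, cun_inv V h3,
    fun x ⟨n, hn⟩ => ⟨n, h4 n x hn⟩⟩

theorem Good.mono {a : ℕ → ℕ} {K K' : RS a → Prop} (h : Good K) (h' : ∀ x, K' x → K x) :
    Good K' := by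
  obtain ⟨V, h1, h2, h3, h4⟩ := h.ex
  exact ⟨V, h1, h2, h3, fun x hx => h4 x (h' x hx)⟩

theorem Good.or {a : ℕ → ℕ} {K K' : RS a → Prop} (h : Good K) (h' : Good K') :
    Good fun x => K x ∨ K' x := by
  refine (Good.un (K := fun n => if n = 0 then K else K') fun n => ?_).mono ?_
  · by_cases hn : n = 0
    · simpa only [hn, if_true] using h
    · simpa only [hn, if_false] using h'
  · rintro x (hx | hx)
    · exact ⟨0, by simpa using hx⟩
    · exact ⟨1, by simpa using hx⟩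

/-- a Borel equivariant involution -/
theorem Good.inv {a : ℕ → ℕ} {Φ : (i : ℕ) → List ℕ → RS a → (Fin (a i) → ℕ) → Prop}
    (hΦ : ∀ i, Nc (Φ i)) {K K' : RS a → Prop} (h : Good K)
    (h1 : ∀ x, K' x → mk Φ [] (mk Φ [] x) = x) (h2 : ∀ x, K' x → K (mk Φ [] x)) : Good K' := by
  obtain ⟨V, k1, k2, k3, k4⟩ := h.ex
  have hp := pcanon hΦ hΦ
  exact ⟨PExp (mk Φ) (mk Φ) V, pexp_vcu hp k1 k2 k3, pexp_coan hp k2, pexp_inv hp k3,
    fun x hx => ⟨[], k4 _ (h2 x hx), h1 x hx⟩⟩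

section rev

variable {a : ℕ → ℕ} (iR iP : ℕ)

/-- the converse of the relation and the complement of the predicate -/
def cR : (i : ℕ) → List ℕ → RS a → (Fin (a i) → ℕ) → Prop := fun i _ x t =>
  (i = iR ∧ ∃ h : a i = 2, x i (p2 (t ⟨1, by omega⟩) (t ⟨0, by omega⟩)) = true) ∨
  (i ≠ iR ∧ i = iP ∧ ¬ x i t = true) ∨ (i ≠ iR ∧ i ≠ iP ∧ x i t = true)

/-- the complement of the relation -/
def cK : (i : ℕ) → List ℕ → RS a → (Fin (a i) → ℕ) → Prop := fun i _ x t =>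
  (i = iR ∧ ∃ h : a i = 2, t ⟨0, by omega⟩ ≠ t ⟨1, by omega⟩ ∧ ¬ x i t = true) ∨
  (i ≠ iR ∧ x i t = true)

theorem nc_cR (i : ℕ) : Nc (cR (a := a) iR iP i) := by
  refine Nc.or ((Nc.const _).and (nc_exh fun h => ?_)) (Nc.or ((Nc.const _).and
    ((Nc.const _).and ?_)) ((Nc.const _).and ((Nc.const _).and ?_)))
  · exact Nc.bin i (fun t : Fin (a i) → ℕ => t ⟨1, by omega⟩) (fun t => t ⟨0, by omega⟩)
        (fun _ _ => rfl) fun _ _ => rfl
  · exact (Nc.rel i (fun t : Fin (a i) → ℕ => t) fun _ _ => rfl).not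
  · exact Nc.rel i (fun t : Fin (a i) → ℕ => t) fun _ _ => rfl

theorem nc_cK (i : ℕ) : Nc (cK (a := a) iR i) := by
  refine Nc.or ((Nc.const _).and (nc_exh fun h => (Nc.not ?_).and (Nc.not ?_)))
    ((Nc.const _).and ?_)
  · exact Nc.eq (fun t : Fin (a i) → ℕ => t ⟨0, by omega⟩) (fun t => t ⟨1, by omega⟩)
        (fun _ _ => rfl) fun _ _ => rfl
  · exact Nc.rel i (fun t : Fin (a i) → ℕ => t) fun _ _ => rfl
  · exact Nc.rel i (fun t : Fin (a i) → ℕ => t) fun _ _ => rfl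

variable {iR iP}

theorem rev_R (hR : a iR = 2) {x : RS a} {p : List ℕ} {u v : ℕ} :
    Rr iR (mk (cR iR iP) p x) u v ↔ Rr iR x v u := by
  unfold Rr
  rw [mk_iff]
  show (iR = iR ∧ ∃ h : a iR = 2, x iR (p2 v u) = true) ∨ _ ∨ _ ↔ _
  constructor
  · rintro (⟨-, -, h⟩ | h | h)
    · exact h
    · exact absurd rfl h.1
    · exact absurd rfl h.1
  · intro h
    exact Or.inl ⟨rfl, hR, h⟩

theorem rev_P (h : iP ≠ iR) {x : RS a} {p : List ℕ} {u : ℕ} :
    Uu iP (mk (cR iR iP) p x) u ↔ ¬ Uu iP x u := by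
  unfold Uu
  rw [mk_iff]
  show (iP = iR ∧ _) ∨ (iP ≠ iR ∧ iP = iP ∧ ¬ x iP (fun _ => u) = true) ∨ (iP ≠ iR ∧ iP ≠ iP ∧ _)
    ↔ _
  tauto

theorem rev_rev (hR : a iR = 2) {x : RS a} {p q : List ℕ} :
    mk (cR iR iP) q (mk (cR iR iP) p x) = x := by
  funext i t
  by_cases hi : i = iR
  · subst hi
    have h1 : ∀ y : RS a, y i t = true ↔ Rr i y (t ⟨0, by omega⟩) (t ⟨1, by omega⟩) := by
      intro y
      unfold Rr
      rw [← t_eq2 hR t]
    rw [Bool.eq_iff_iff, h1, h1, rev_R hR, rev_R hR]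
  · rw [Bool.eq_iff_iff]
    have h1 : ∀ (y : RS a) (p : List ℕ), mk (cR iR iP) p y i t = true ↔
        (if i = iP then ¬ y i t = true else y i t = true) := by
      intro y p
      rw [mk_iff]
      show (i = iR ∧ _) ∨ (i ≠ iR ∧ i = iP ∧ ¬ y i t = true) ∨ (i ≠ iR ∧ i ≠ iP ∧ y i t = true) ↔ _
      split_ifs <;> tauto
    rw [h1, h1]
    split_ifs <;> tauto

theorem com_R (hR : a iR = 2) {x : RS a} {p : List ℕ} {u v : ℕ} :
    Rr iR (mk (cK iR) p x) u v ↔ u ≠ v ∧ ¬ Rr iR x u v := by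
  unfold Rr
  rw [mk_iff]
  show (iR = iR ∧ ∃ h : a iR = 2, u ≠ v ∧ ¬ x iR (p2 u v) = true) ∨ _ ↔ _
  constructor
  · rintro (⟨-, -, h⟩ | h)
    · exact h
    · exact absurd rfl h.1
  · intro h
    exact Or.inl ⟨rfl, hR, h⟩

theorem com_com (hR : a iR = 2) {x : RS a} (hx : ∀ u, ¬ Rr iR x u u) {p q : List ℕ} :
    mk (cK iR) q (mk (cK iR) p x) = x := by
  funext i t
  by_cases hi : i = iR
  · subst hi
    have h1 : ∀ y : RS a, y i t = true ↔ Rr i y (t ⟨0, by omega⟩) (t ⟨1, by omega⟩) := by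
      intro y
      unfold Rr
      rw [← t_eq2 hR t]
    rw [Bool.eq_iff_iff, h1, h1, com_R hR, com_R hR]
    by_cases h2 : t ⟨0, by omega⟩ = t ⟨1, by omega⟩
    · rw [h2]
      have := hx (t ⟨1, by omega⟩)
      tauto
    · tauto
  · rw [Bool.eq_iff_iff]
    have h1 : ∀ (y : RS a) (p : List ℕ), mk (cK iR) p y i t = true ↔ y i t = true := by
      intro y p
      rw [mk_iff]
      show (i = iR ∧ _) ∨ (i ≠ iR ∧ y i t = true) ↔ _
      tauto
    rw [h1, h1]

end rev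

theorem good_gr {a : ℕ → ℕ} {iR : ℕ} (hR : a iR = 2) (ha : ∀ i, i ≠ iR → a i ≤ 1) :
    Good fun x : RS a => Gr1 (Rr iR x) :=
  ((⟨vcu_mul hR ha⟩ : Good fun x : RS a => Mul (Rr iR x)).or ⟨vcu_ln hR ha⟩).mono
    fun x hx => hx.cases

/-- `R` is a relation between the elements of `P` and the others without shattered pairs in `P` or
without shattered pairs outside, or a graph without shattered pairs for the open or for the closed
neighbourhoods -/
def Sm (P : ℕ → ℕ → Prop) (Q : ℕ → Prop) (R : ℕ → ℕ → Prop) : Prop :=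
  (∃ i, Q i ∧ (Two (P i) R ∨ Two (fun u => ¬ P i u) (fun u v => R v u))) ∨
  Gr1 R ∨ ((∀ u, ¬ R u u) ∧ Gr1 fun u v => u ≠ v ∧ ¬ R u v)

theorem good_sm {a : ℕ → ℕ} {iR : ℕ} (hR : a iR = 2) (ha : ∀ i, i ≠ iR → a i ≤ 1) :
    Good fun x : RS a => Sm (fun i => Uu i x) (fun i => a i = 1) (Rr iR x) := by
  have h1 : Good fun x : RS a => Gr1 (Rr iR x) := good_gr hR ha
  have h2 : Good fun x : RS a => (∀ u, ¬ Rr iR x u u) ∧ Gr1 fun u v => u ≠ v ∧ ¬ Rr iR x u v := by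
    refine h1.inv (Φ := cK iR) (nc_cK iR) (fun x hx => com_com hR hx.1) fun x hx => ?_
    have h : Rr iR (mk (cK iR) [] x) = fun u v => u ≠ v ∧ ¬ Rr iR x u v := by
      funext u v
      exact propext (com_R hR)
    rw [h]
    exact hx.2
  have h3 : ∀ i, Good fun x : RS a => a i = 1 ∧ Two (Uu i x) (Rr iR x) := by
    intro i
    by_cases hi : a i = 1
    · exact (⟨vcu_two hR hi ha⟩ : Good fun x : RS a => Two (Uu i x) (Rr iR x)).mono
        fun x hx => hx.2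
    · exact h1.mono fun x hx => absurd hx.1 hi
  have h4 : ∀ i, Good fun x : RS a => a i = 1 ∧ Two (fun u => ¬ Uu i x u)
      (fun u v => Rr iR x v u) := by
    intro i
    by_cases hi : a i = 1
    · have hne : i ≠ iR := by
        rintro rfl
        omega
      refine (h3 i).inv (Φ := cR iR i) (nc_cR iR i) (fun x _ => rev_rev hR) fun x hx => ⟨hi, ?_⟩
      have k1 : Rr iR (mk (cR iR i) [] x) = fun u v => Rr iR x v u := by
        funext u v
        exact propext (rev_R hR)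
      have k2 : Uu i (mk (cR iR i) [] x) = fun u => ¬ Uu i x u := by
        funext u
        exact propext (rev_P hne)
      rw [k1, k2]
      exact hx.2
    · exact h1.mono fun x hx => absurd hx.1 hi
  refine ((Good.un fun i => (h3 i).or (h4 i)).or (h1.or h2)).mono ?_
  rintro x (⟨i, h, h5 | h5⟩ | h | h)
  · exact Or.inl ⟨i, Or.inl ⟨h, h5⟩⟩
  · exact Or.inl ⟨i, Or.inr ⟨h, h5⟩⟩
  · exact Or.inr (Or.inl h)
  · exact Or.inr (Or.inr h)

/-! ### First-order theories -/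

open FirstOrder FirstOrder.Language
open Pool.Agent.W889.VC (Str Iso VCof)
open Pool.Agent.W889.FO
open Pool.Agent.W889.FO.Pos

theorem fo_small {L : FirstOrder.Language.{0, 0}} [L.IsRelational]
    [Countable (Σ n, L.Relations n)] (R : L.Relations 2)
    (hL : ∀ (n : ℕ) (Q : L.Relations n), n ≤ 1 ∨ (⟨n, Q⟩ : Σ n, L.Relations n) = ⟨2, R⟩)
    (T : L.Theory)
    (h : ∀ S : L.Structure ℕ, @Theory.Model L ℕ S T →
      (∃ P : L.Relations 1,
        Two (fun u => @Structure.RelMap L ℕ S 1 P (fun _ => u))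
          (fun u v => @Structure.RelMap L ℕ S 2 R ![u, v]) ∨
        Two (fun u => ¬ @Structure.RelMap L ℕ S 1 P (fun _ => u))
          (fun u v => @Structure.RelMap L ℕ S 2 R ![v, u])) ∨
      Gr1 (fun u v => @Structure.RelMap L ℕ S 2 R ![u, v]) ∨
      ((∀ u, ¬ @Structure.RelMap L ℕ S 2 R ![u, u]) ∧
        Gr1 fun u v => u ≠ v ∧ ¬ @Structure.RelMap L ℕ S 2 R ![u, v])) :
    Vaught L T := by
  refine vaught_of_coded T fun s e hse hes => ?_
  have hR : ar (s (e ⟨2, R⟩)) = 2 := by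
    rw [hse]
    rfl
  have ha : ∀ i, i ≠ e ⟨2, R⟩ → ar (s i) ≤ 1 := by
    intro i hi
    rcases hs : s i with _ | ⟨n, Q⟩
    · exact Nat.zero_le _
    · rcases hL n Q with h1 | h1
      · exact h1
      · exact absurd (hes i _ (by rw [hs, h1])).symm hi
  obtain ⟨V, k1, -, -, k4⟩ := (good_sm (a := fun i => ar (s i)) hR ha).ex
  refine vcof_of k1 fun x hx => k4 x ?_
  have r1 : Rr (e ⟨2, R⟩) x = fun u v => @Structure.RelMap L ℕ (dn e x) 2 R ![u, v] := by
    funext u v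
    refine propext ?_
    have h1 : @Structure.RelMap L ℕ (dn e x) 2 R ![u, v] ↔
        x (e ⟨2, R⟩) (fun j => ![u, v] (Fin.cast hR j)) = true :=
      ⟨fun h1 => h1 (hse _), fun h1 _ => h1⟩
    rw [h1]
    unfold Rr
    have h2 : (p2 u v : Fin (ar (s (e ⟨2, R⟩))) → ℕ) = fun j => ![u, v] (Fin.cast hR j) := by
      funext j
      have h3 : ∀ j' : Fin 2, (if j'.val = 0 then u else v) = ![u, v] j' := by
        intro j'
        fin_cases j' <;> rfl
      exact h3 (Fin.cast hR j)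
    rw [h2]
  have u1 : ∀ P : L.Relations 1, Uu (e ⟨1, P⟩) x =
      fun u => @Structure.RelMap L ℕ (dn e x) 1 P (fun _ => u) := by
    intro P
    funext u
    refine propext ?_
    exact ⟨fun h1 _ => h1, fun h1 => h1 (hse _)⟩
  have a1 : ∀ P : L.Relations 1, ar (s (e ⟨1, P⟩)) = 1 := by
    intro P
    rw [hse]
    rfl
  rcases h (dn e x) hx.2 with ⟨P, h1 | h1⟩ | h1 | h1
  · refine Or.inl ⟨e ⟨1, P⟩, a1 P, Or.inl ?_⟩
    show Two (Uu (e ⟨1, P⟩) x) (Rr (e ⟨2, R⟩) x)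
    rw [u1, r1]
    exact h1
  · refine Or.inl ⟨e ⟨1, P⟩, a1 P, Or.inr ?_⟩
    show Two (fun u => ¬ Uu (e ⟨1, P⟩) x u) (fun u v => Rr (e ⟨2, R⟩) x v u)
    rw [u1, r1]
    exact h1
  · refine Or.inr (Or.inl ?_)
    rw [r1]
    exact h1
  · refine Or.inr (Or.inr ?_)
    rw [r1]
    exact h1

end Pool.Agent.Y558.VCD
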