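import Pool.Agent.W889.FO.All
import Pool.Agent.Y558.VCD.Vc

set_option autoImplicit false
set_option linter.unusedVariables false

/-! Subdivided graphs have VC dimension two and a linear shatter function. -/

namespace Pool.Agent.Y558.VCD

open Pool.Agent.W889.SD (Subd Big Pth)

/-- the finite set `A` is shattered by the family `F` -/
def Shat (F : Set (Set ℕ)) (A : Finset ℕ) : Prop :=
  ∀ B : Finset ℕ, B ⊆ A → ∃ X ∈ F, ∀ u ∈ A, (u ∈ X ↔ u ∈ B)

/-- VC dimension at most `d` -/
def VCLe (F : Set (Set ℕ)) (d : ℕ) : Prop := ∀ A : Finset ℕ, Shat F A → A.card ≤ d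

theorem pair_of {F : Set (Set ℕ)} (h : VCLe F 1) {u v : ℕ} (huv : u ≠ v) :
    (∀ X ∈ F, ¬ (u ∈ X ∧ v ∈ X)) ∨ (∀ X ∈ F, u ∈ X → v ∈ X) ∨ (∀ X ∈ F, v ∈ X → u ∈ X) ∨
      ∀ X ∈ F, u ∈ X ∨ v ∈ X := by
  classical
  by_contra hc
  push Not at hc
  obtain ⟨⟨X1, h1, h1a, h1b⟩, ⟨X2, h2, h2a, h2b⟩, ⟨X3, h3, h3a, h3b⟩, ⟨X4, h4, h4a, h4b⟩⟩ := hc
  have h5 : ({u, v} : Finset ℕ).card ≤ 1 := by
    refine h _ fun B _ => ?_
    have key : ∀ X ∈ F, (u ∈ X ↔ u ∈ B) → (v ∈ X ↔ v ∈ B) →
        ∃ X ∈ F, ∀ w ∈ ({u, v} : Finset ℕ), (w ∈ X ↔ w ∈ B) := by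
      intro X hX k1 k2
      refine ⟨X, hX, fun w hw => ?_⟩
      rcases Finset.mem_insert.1 hw with rfl | hw
      · exact k1
      · rw [Finset.mem_singleton.1 hw]
        exact k2
    by_cases k1 : u ∈ B <;> by_cases k2 : v ∈ B
    · exact key X1 h1 (by tauto) (by tauto)
    · exact key X2 h2 (by tauto) (by tauto)
    · exact key X3 h3 (by tauto) (by tauto)
    · exact key X4 h4 (by tauto) (by tauto)
  rw [Finset.card_pair huv] at h5
  omega

theorem two_of {P : ℕ → Prop} {R : ℕ → ℕ → Prop} (h1 : ∀ u v, R u v → P u ∧ ¬ P v)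
    (h2 : VCLe {X | ∃ w, ¬ P w ∧ X = {u | R u w}} 1) : Two P R := by
  refine ⟨h1, fun u v hu hv huv => ?_⟩
  rcases pair_of h2 huv with h | h | h | h
  · left
    intro w hw
    exact h _ ⟨w, (h1 _ _ hw.1).2, rfl⟩ hw
  · right; left
    intro w hw
    exact h _ ⟨w, (h1 _ _ hw).2, rfl⟩ hw
  · right; right; left
    intro w hw
    exact h _ ⟨w, (h1 _ _ hw).2, rfl⟩ hw
  · right; right; right
    intro w hw
    exact h _ ⟨w, hw, rfl⟩

theorem gr_of {R : ℕ → ℕ → Prop} (h1 : ∀ u v, R u v → R v u) (h2 : ∀ u, ¬ R u u)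
    (h3 : VCLe {X | ∃ w, X = {u | R u w}} 1) : Gr1 R := by
  refine ⟨h1, h2, fun u v huv => ?_⟩
  rcases pair_of h3 huv with h | h | h | h
  · exact Or.inl fun w hw => h _ ⟨w, rfl⟩ hw
  · exact Or.inr (Or.inl fun w hw => h _ ⟨w, rfl⟩ hw)
  · exact Or.inr (Or.inr (Or.inl fun w hw => h _ ⟨w, rfl⟩ hw))
  · exact Or.inr (Or.inr (Or.inr fun w => h _ ⟨w, rfl⟩))

/-- the complement graph -/
theorem co_of {R : ℕ → ℕ → Prop} (h1 : ∀ u v, R u v → R v u)
    (h3 : VCLe {X | ∃ w, X = {u | u = w ∨ R u w}} 1) : Gr1 fun u v => u ≠ v ∧ ¬ R u v := by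
  refine ⟨fun u v h => ⟨h.1.symm, fun h' => h.2 (h1 _ _ h')⟩, fun u h => h.1 rfl,
    fun u v huv => ?_⟩
  have key : ∀ a w, (a ≠ w ∧ ¬ R a w) ↔ ¬ (a = w ∨ R a w) := by
    intro a w
    tauto
  simp only [key]
  rcases pair_of h3 huv with h | h | h | h
  · right; right; right
    intro w
    have := h _ ⟨w, rfl⟩
    simp only [Set.mem_ofPred_eq] at this
    tauto
  · right; right; left
    intro w
    have := h _ ⟨w, rfl⟩
    simp only [Set.mem_ofPred_eq] at this
    tauto
  · right; left
    intro w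
    have := h _ ⟨w, rfl⟩
    simp only [Set.mem_ofPred_eq] at this
    tauto
  · left
    intro w
    have := h _ ⟨w, rfl⟩
    simp only [Set.mem_ofPred_eq] at this
    tauto

section hard

variable {y : ℕ → ℕ → Prop}

/-- small vertices -/
theorem small (h : Subd 1 y) {u : ℕ} (hu : ¬ Big y u) : (∀ v, ¬ y u v) ∨
    ∃ w v, Big y w ∧ ¬ Big y v ∧ ∀ z, y u z ↔ z = w ∨ z = v := by
  rcases h.cov u hu with h1 | ⟨w, p, w', i, h1, h2⟩
  · exact Or.inl h1
  · right
    have e01 : y (p 0) (p 1) := h1.mid 0 1 (by decide)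
    have key : ∀ z, y (p i) z → (z = w ∧ (i : ℕ) = 0) ∨ (z = w' ∧ (i : ℕ) = 1) ∨
        ∃ j : Fin 2, z = p j ∧ ((j : ℕ) = i + 1 ∨ (i : ℕ) = j + 1) := fun z hz =>
      h.cl w p w' i z h1 hz
    have hi : i = 0 ∨ i = 1 := by
      have h0 : ∀ i : Fin 2, i = 0 ∨ i = 1 := by decide
      exact h0 i
    rcases hi with rfl | rfl
    · refine ⟨w, p 1, h1.bw, h1.nb 1, fun z => ?_⟩
      rw [← h2]
      constructor
      · intro hz
        rcases key z hz with ⟨h3, -⟩ | ⟨-, h3⟩ | ⟨j, h3, h4 | h4⟩
        · exact Or.inl h3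
        · exact absurd h3 (by decide)
        · right
          rw [h3]
          congr 1
          exact Fin.ext h4
        · exact absurd h4 (by simp)
      · rintro (rfl | rfl)
        · exact h.symm _ _ (h1.st 0 rfl)
        · exact e01
    · refine ⟨w', p 0, h1.bw', h1.nb 0, fun z => ?_⟩
      rw [← h2]
      constructor
      · intro hz
        rcases key z hz with ⟨-, h3⟩ | ⟨h3, -⟩ | ⟨j, h3, h4 | h4⟩
        · exact absurd h3 (by decide)
        · exact Or.inl h3
        · have h5 : (j : ℕ) < 2 := j.2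
          have h6 : (j : ℕ) = 1 + 1 := h4
          omega
        · right
          rw [h3]
          congr 1
          refine Fin.ext ?_
          have h6 : 1 = (j : ℕ) + 1 := h4
          have h7 : (j : ℕ) = 0 := by omega
          exact h7
      · rintro (rfl | rfl)
        · exact h1.en 1 rfl
        · exact h.symm _ _ e01

theorem vc_subd (h : Subd 1 y) : VCLe {X | ∃ w, X = {u | y u w}} 2 := by
  classical
  intro A hA
  by_contra hc
  have h3 : 2 < A.card := by omega
  obtain ⟨a, b, c, ha, hb, hcA, hab, hac, hbc⟩ := Finset.two_lt_card_iff.1 h3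
  obtain ⟨_, ⟨w, rfl⟩, hw⟩ := hA A (Finset.Subset.refl _)
  have hwa : y w a := h.symm _ _ ((hw a ha).2 ha)
  have hwb : y w b := h.symm _ _ ((hw b hb).2 hb)
  have hwc : y w c := h.symm _ _ ((hw c hcA).2 hcA)
  have hbig : Big y w := ⟨a, b, c, hab, hac, hbc, hwa, hwb, hwc⟩
  have hsa : ¬ Big y a := fun h' => h.indep w a hbig h' hwa
  have hsb : ¬ Big y b := fun h' => h.indep w b hbig h' hwb
  obtain ⟨_, ⟨w', rfl⟩, hw'⟩ := hA {a, b} (by
    intro z hz
    rcases Finset.mem_insert.1 hz with rfl | hz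
    · exact ha
    · rw [Finset.mem_singleton.1 hz]
      exact hb)
  have hwa' : y a w' := (hw' a ha).2 (by simp)
  have hwb' : y b w' := (hw' b hb).2 (by simp)
  have hne : w' ≠ w := by
    rintro rfl
    have := (hw' c hcA).1 (h.symm _ _ hwc)
    rcases Finset.mem_insert.1 this with h' | h'
    · exact hac h'.symm
    · exact hbc (Finset.mem_singleton.1 h').symm
  rcases small h hsa with h1 | ⟨x, v, hx, hv, hz⟩
  · exact h1 w (h.symm _ _ hwa)
  · have hxw : w = x := by
      rcases (hz w).1 (h.symm _ _ hwa) with h4 | h4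
      · exact h4
      · exact absurd (h4 ▸ hbig) hv
    have hvw : w' = v := by
      rcases (hz w').1 hwa' with h4 | h4
      · exact absurd (h4.trans hxw.symm) hne
      · exact h4
    subst hvw
    rcases small h hv with h1 | ⟨x', v', hx', hv', hz'⟩
    · exact h1 a (h.symm _ _ hwa')
    · have k1 : a = v' := by
        rcases (hz' a).1 (h.symm _ _ hwa') with h4 | h4
        · exact absurd (h4 ▸ hx') hsa
        · exact h4
      have k2 : b = v' := by
        rcases (hz' b).1 (h.symm _ _ hwb') with h4 | h4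
        · exact absurd (h4 ▸ hx') hsb
        · exact h4
      exact hab (k1.trans k2.symm)

open Classical in
theorem tr_subd (h : Subd 1 y) (X : Finset ℕ) :
    Set.ncard {Y : Finset ℕ | ∃ w, Y = X.filter fun u => y u w} ≤ 3 * X.card + 1 := by
  let β : ℕ → ℕ := fun x => if h : ∃ w, Big y w ∧ y x w then h.choose else 0
  let γ : ℕ → ℕ := fun x => if h : ∃ w, ¬ Big y w ∧ y x w then h.choose else 0
  let f : ℕ → Finset ℕ := fun w => X.filter fun u => y u w
  let F : Finset (Finset ℕ) := insert ∅ ((X.image fun x => {x}) ∪ ((X.image fun x => f (β x)) ∪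
    X.image fun x => f (γ x)))
  have hF : F.card ≤ 3 * X.card + 1 := by
    have h1 : (X.image fun x => ({x} : Finset ℕ)).card ≤ X.card := Finset.card_image_le
    have h2 : (X.image fun x => f (β x)).card ≤ X.card := Finset.card_image_le
    have h3 : (X.image fun x => f (γ x)).card ≤ X.card := Finset.card_image_le
    refine (Finset.card_insert_le _ _).trans ?_
    have h4 := Finset.card_union_le (X.image fun x => ({x} : Finset ℕ))
      ((X.image fun x => f (β x)) ∪ X.image fun x => f (γ x))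
    have h5 := Finset.card_union_le (X.image fun x => f (β x)) (X.image fun x => f (γ x))
    omega
  have hsub : {Y : Finset ℕ | ∃ w, Y = X.filter fun u => y u w} ⊆ ↑F := by
    rintro _ ⟨w, rfl⟩
    show f w ∈ F
    rw [Finset.mem_insert, Finset.mem_union, Finset.mem_union, Finset.mem_image, Finset.mem_image,
      Finset.mem_image]
    have mf : ∀ {u w}, u ∈ f w ↔ u ∈ X ∧ y u w := fun {u w} => Finset.mem_filter
    by_cases hw : Big y w
    · by_cases he : f w = ∅
      · exact Or.inl he
      · obtain ⟨a, ha⟩ := Finset.nonempty_iff_ne_empty.2 he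
        obtain ⟨haX, haw⟩ := mf.1 ha
        refine Or.inr (Or.inr (Or.inl ⟨a, haX, ?_⟩))
        have hex : ∃ w, Big y w ∧ y a w := ⟨w, hw, haw⟩
        have e1 : β a = hex.choose := dif_pos hex
        have hb := hex.choose_spec
        rw [← e1] at hb
        have hsa : ¬ Big y a := fun h' => h.indep w a hw h' (h.symm _ _ haw)
        rcases small h hsa with h1 | ⟨x, v, hx, hv, hz⟩
        · exact absurd haw (h1 w)
        · have k1 : w = x := by
            rcases (hz w).1 haw with h4 | h4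
            · exact h4
            · exact absurd (h4 ▸ hw) hv
          have k2 : β a = x := by
            rcases (hz (β a)).1 hb.2 with h4 | h4
            · exact h4
            · exact absurd (h4 ▸ hb.1) hv
          rw [k2, k1]
    · rcases small h hw with h1 | ⟨x, v, hx, hv, hz⟩
      · left
        refine Finset.eq_empty_of_forall_notMem fun u hu => ?_
        exact h1 u (h.symm _ _ (mf.1 hu).2)
      · by_cases hvX : v ∈ X
        · refine Or.inr (Or.inr (Or.inr ⟨v, hvX, ?_⟩))
          have hvw : y v w := h.symm _ _ ((hz v).2 (Or.inr rfl))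
          have hex : ∃ w, ¬ Big y w ∧ y v w := ⟨w, hw, hvw⟩
          have e1 : γ v = hex.choose := dif_pos hex
          have hb := hex.choose_spec
          rw [← e1] at hb
          rcases small h hv with h1 | ⟨x', v', hx', hv', hz'⟩
          · exact absurd hvw (h1 w)
          · have k1 : w = v' := by
              rcases (hz' w).1 hvw with h4 | h4
              · exact absurd (h4 ▸ hx') hw
              · exact h4
            have k2 : γ v = v' := by
              rcases (hz' (γ v)).1 hb.2 with h4 | h4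
              · exact absurd (h4 ▸ hx') hb.1
              · exact h4
            rw [k2, k1]
        · by_cases hxX : x ∈ X
          · refine Or.inr (Or.inl ⟨x, hxX, ?_⟩)
            ext u
            rw [mf, Finset.mem_singleton]
            constructor
            · rintro rfl
              exact ⟨hxX, h.symm _ _ ((hz u).2 (Or.inl rfl))⟩
            · rintro ⟨h4, h5⟩
              rcases (hz u).1 (h.symm _ _ h5) with h6 | h6
              · exact h6
              · exact absurd (h6 ▸ h4) hvX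
          · left
            refine Finset.eq_empty_of_forall_notMem fun u hu => ?_
            obtain ⟨h4, h5⟩ := mf.1 hu
            rcases (hz u).1 (h.symm _ _ h5) with h6 | h6
            · exact hxX (h6 ▸ h4)
            · exact hvX (h6 ▸ h4)
  calc Set.ncard {Y : Finset ℕ | ∃ w, Y = X.filter fun u => y u w} ≤ Set.ncard (F : Set (Finset ℕ)) :=
        Set.ncard_le_ncard hsub F.finite_toSet
    _ = F.card := Set.ncard_coe_finset F
    _ ≤ 3 * X.card + 1 := hF

theorem tr_subd' (h : Subd 1 y) (X : Finset ℕ) :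
    Set.ncard {Y : Set ℕ | ∃ w, Y = {u | u ∈ X ∧ y u w}} ≤ 3 * X.card + 1 := by
  classical
  refine le_trans ?_ (tr_subd h X)
  have hsub : {Y : Set ℕ | ∃ w, Y = {u | u ∈ X ∧ y u w}} =
      (fun Y : Finset ℕ => (Y : Set ℕ)) '' {Y : Finset ℕ | ∃ w, Y = X.filter fun u => y u w} := by
    ext Y
    constructor
    · rintro ⟨w, rfl⟩
      refine ⟨_, ⟨w, rfl⟩, ?_⟩
      ext u
      simp
    · rintro ⟨_, ⟨w, rfl⟩, rfl⟩
      refine ⟨w, ?_⟩
      ext u
      simp
  rw [hsub, Set.ncard_image_of_injective _ Finset.coe_injective]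

end hard

end Pool.Agent.Y558.VCD
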