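import Pool.Agent.Y558.VCD.Base

set_option autoImplicit false

/-! Laminar families and C-relations; the tree of a system of cross-free sets. -/

namespace Pool.Agent.Y558.VCD

/-- Pairwise disjoint or nested. -/
def Lam {ι : Type} (C : ι → ℕ → Prop) : Prop :=
  ∀ i j, (∀ u, ¬ (C i u ∧ C j u)) ∨ (∀ u, C i u → C j u) ∨ (∀ u, C j u → C i u)

/-- The C-relation of a laminar family. -/
def CD {ι : Type} (C : ι → ℕ → Prop) (u v w : ℕ) : Prop :=
  (u = v ∧ v ≠ w) ∨ ∃ i, C i u ∧ C i v ∧ ¬ C i w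

section lam

variable {ι : Type} {C : ι → ℕ → Prop}

theorem cd_refl {u w : ℕ} (h : u ≠ w) : CD C u u w := Or.inl ⟨rfl, h⟩

theorem cd_irr (u v : ℕ) : ¬ CD C u v u := by
  rintro (⟨h1, h2⟩ | ⟨i, h1, h2, h3⟩)
  · exact h2 h1.symm
  · exact h3 h1

theorem cd_symm {u v w : ℕ} (h : CD C u v w) : CD C v u w := by
  rcases h with ⟨h1, h2⟩ | ⟨i, h1, h2, h3⟩
  · exact Or.inl ⟨h1.symm, h1 ▸ h2⟩
  · exact Or.inr ⟨i, h2, h1, h3⟩

theorem cd_c2 (hC : Lam C) {u v w : ℕ} (h : CD C u v w) : ¬ CD C u w v := by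
  rintro h'
  rcases h with ⟨h1, h2⟩ | ⟨i, h1, h2, h3⟩
  · subst h1
    exact cd_irr _ _ h'
  · rcases h' with ⟨h4, h5⟩ | ⟨j, h4, h5, h6⟩
    · subst h4
      exact h3 h1
    · rcases hC i j with h | h | h
      · exact h u ⟨h1, h4⟩
      · exact h6 (h v h2)
      · exact h3 (h w h5)

theorem cd_c3 {u v w : ℕ} (h : CD C u v w) (z : ℕ) : CD C u v z ∨ CD C z v w := by
  rcases h with ⟨rfl, h2⟩ | ⟨i, h1, h2, h3⟩
  · by_cases hz : u = z
    · subst hz
      exact Or.inr (Or.inl ⟨rfl, h2⟩)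
    · exact Or.inl (Or.inl ⟨rfl, hz⟩)
  · by_cases hz : C i z
    · exact Or.inr (Or.inr ⟨i, hz, h2, h3⟩)
    · exact Or.inl (Or.inr ⟨i, h1, h2, hz⟩)

end lam

/-- A relation between the elements of `P` and the other elements. -/
structure Two (P : ℕ → Prop) (R : ℕ → ℕ → Prop) : Prop where
  side : ∀ u v, R u v → P u ∧ ¬ P v
  cross : ∀ a a', P a → P a' → a ≠ a' → (∀ w, ¬ (R a w ∧ R a' w)) ∨ (∀ w, R a w → R a' w) ∨
    (∀ w, R a' w → R a w) ∨ ∀ w, ¬ P w → R a w ∨ R a' w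

section tree

variable (P : ℕ → Prop) (R : ℕ → ℕ → Prop) (b : ℕ)

/-- the normalised set of `a` -/
def In (a w : ℕ) : Prop := P a ∧ ¬ P w ∧ ¬ (R a w ↔ R a b)

/-- the set is nonempty -/
def Ne (a : ℕ) : Prop := ∃ w, In P R b a w

/-- inclusion of the sets -/
def Le (a' a : ℕ) : Prop := ∀ w, In P R b a' w → In P R b a w

/-- open cone -/
def Km (a u : ℕ) : Prop :=
  P a ∧ (In P R b a u ∨ (P u ∧ Ne P R b u ∧ Le P R b u a ∧ ¬ Le P R b a u))

/-- closed cone -/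
def Kc (a u : ℕ) : Prop := P a ∧ (In P R b a u ∨ (P u ∧ Ne P R b u ∧ Le P R b u a))

/-- the cones -/
def Cf (i : ℕ × Bool) (u : ℕ) : Prop := if i.2 then Kc P R b i.1 u else Km P R b i.1 u

variable {P R b}

theorem Le.refl (a : ℕ) : Le P R b a a := fun _ h => h

theorem Le.trans {a a' a'' : ℕ} (h : Le P R b a a') (h' : Le P R b a' a'') : Le P R b a a'' :=
  fun w hw => h' w (h w hw)

theorem km_kc {a u : ℕ} (h : Km P R b a u) : Kc P R b a u := by
  obtain ⟨h1, h2 | h2⟩ := h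
  · exact ⟨h1, Or.inl h2⟩
  · exact ⟨h1, Or.inr ⟨h2.1, h2.2.1, h2.2.2.1⟩⟩

theorem lam_in (h : Two P R) (hb : ¬ P b ∨ ∀ w, P w) {a a' : ℕ} (ha : P a) (ha' : P a') :
    (∀ w, ¬ (In P R b a w ∧ In P R b a' w)) ∨ Le P R b a a' ∨ Le P R b a' a := by
  rcases hb with hb | hb
  swap
  · exact Or.inl fun w hw => hw.1.2.1 (hb w)
  by_cases haa : a = a'
  · subst haa
    exact Or.inr (Or.inl (Le.refl a))
  have h1 := h.cross a a' ha ha' haa
  unfold Le In
  by_cases h2 : R a b <;> by_cases h3 : R a' b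
  · rcases h1 with h4 | h4 | h4 | h4
    · exact absurd ⟨h2, h3⟩ (h4 b)
    · right; right
      intro w hw
      refine ⟨ha, hw.2.1, ?_⟩
      have := h4 w
      tauto
    · right; left
      intro w hw
      refine ⟨ha', hw.2.1, ?_⟩
      have := h4 w
      tauto
    · left
      intro w hw
      have := h4 w hw.1.2.1
      tauto
  · rcases h1 with h4 | h4 | h4 | h4
    · right; right
      intro w hw
      refine ⟨ha, hw.2.1, ?_⟩
      have := h4 w
      tauto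
    · exact absurd (h4 b h2) h3
    · left
      intro w hw
      have := h4 w
      tauto
    · right; left
      intro w hw
      refine ⟨ha', hw.2.1, ?_⟩
      have := h4 w hw.2.1
      tauto
  · rcases h1 with h4 | h4 | h4 | h4
    · right; left
      intro w hw
      refine ⟨ha', hw.2.1, ?_⟩
      have := h4 w
      tauto
    · left
      intro w hw
      have := h4 w
      tauto
    · exact absurd (h4 b h3) h2
    · right; right
      intro w hw
      refine ⟨ha, hw.2.1, ?_⟩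
      have := h4 w hw.2.1
      tauto
  · rcases h1 with h4 | h4 | h4 | h4
    · left
      intro w hw
      have := h4 w
      tauto
    · right; left
      intro w hw
      refine ⟨ha', hw.2.1, ?_⟩
      have := h4 w
      tauto
    · right; right
      intro w hw
      refine ⟨ha, hw.2.1, ?_⟩
      have := h4 w
      tauto
    · have := h4 b hb
      tauto

theorem kc_disj {a a' u : ℕ} (h : ∀ w, ¬ (In P R b a w ∧ In P R b a' w)) :
    ¬ (Kc P R b a u ∧ Kc P R b a' u) := by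
  rintro ⟨⟨-, h1 | h1⟩, -, h2 | h2⟩
  · exact h u ⟨h1, h2⟩
  · exact h1.2.1 h2.1
  · exact h2.2.1 h1.1
  · obtain ⟨w, hw⟩ := h1.2.1
    exact h w ⟨h1.2.2 w hw, h2.2.2 w hw⟩

theorem kc_mono {a a' u : ℕ} (ha' : P a') (h : Le P R b a a') (hu : Kc P R b a u) :
    Kc P R b a' u := by
  obtain ⟨-, h1 | h1⟩ := hu
  · exact ⟨ha', Or.inl (h u h1)⟩
  · exact ⟨ha', Or.inr ⟨h1.1, h1.2.1, h1.2.2.trans h⟩⟩

theorem km_mono {a a' u : ℕ} (ha' : P a') (h : Le P R b a a') (hu : Km P R b a u) :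
    Km P R b a' u := by
  obtain ⟨-, h1 | h1⟩ := hu
  · exact ⟨ha', Or.inl (h u h1)⟩
  · exact ⟨ha', Or.inr ⟨h1.1, h1.2.1, h1.2.2.1.trans h, fun h2 => h1.2.2.2 (h.trans h2)⟩⟩

theorem kc_km {a a' u : ℕ} (ha' : P a') (h : Le P R b a a') (h' : ¬ Le P R b a' a)
    (hu : Kc P R b a u) : Km P R b a' u := by
  obtain ⟨-, h1 | h1⟩ := hu
  · exact ⟨ha', Or.inl (h u h1)⟩
  · exact ⟨ha', Or.inr ⟨h1.1, h1.2.1, h1.2.2.trans h, fun h2 => h' (h2.trans h1.2.2)⟩⟩

theorem cf_kc {i : ℕ × Bool} {u : ℕ} (h : Cf P R b i u) : Kc P R b i.1 u := by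
  unfold Cf at h
  split_ifs at h
  · exact h
  · exact km_kc h

theorem cf_P {i : ℕ × Bool} {u : ℕ} (h : Cf P R b i u) : P i.1 := (cf_kc h).1

theorem km_cf {i : ℕ × Bool} {u : ℕ} (h : Km P R b i.1 u) : Cf P R b i u := by
  unfold Cf
  split_ifs
  · exact km_kc h
  · exact h

theorem cf_mono {a a' : ℕ} {s : Bool} {u : ℕ} (ha' : P a') (h : Le P R b a a')
    (hu : Cf P R b (a, s) u) : Cf P R b (a', s) u := by
  cases s
  · exact km_mono ha' h hu
  · exact kc_mono ha' h hu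

theorem lam_cf (h : Two P R) (hb : ¬ P b ∨ ∀ w, P w) : Lam (Cf P R b) := by
  rintro ⟨a, s⟩ ⟨a', s'⟩
  by_cases ha : P a
  swap
  · exact Or.inl fun u hu => ha (cf_P hu.1)
  by_cases ha' : P a'
  swap
  · exact Or.inl fun u hu => ha' (cf_P hu.2)
  rcases lam_in h hb ha ha' with h1 | h1 | h1
  · exact Or.inl fun u hu => kc_disj h1 ⟨cf_kc hu.1, cf_kc hu.2⟩
  · by_cases h2 : Le P R b a' a
    · -- twins
      cases s <;> cases s'
      · exact Or.inr (Or.inl fun u hu => km_mono ha' h1 hu)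
      · exact Or.inr (Or.inl fun u hu => km_kc (km_mono ha' h1 hu))
      · exact Or.inr (Or.inr fun u hu => km_kc (km_mono ha h2 hu))
      · exact Or.inr (Or.inl fun u hu => kc_mono ha' h1 hu)
    · refine Or.inr (Or.inl fun u hu => km_cf (kc_km ha' h1 h2 (cf_kc hu)))
  · by_cases h2 : Le P R b a a'
    · cases s <;> cases s'
      · exact Or.inr (Or.inl fun u hu => km_mono ha' h2 hu)
      · exact Or.inr (Or.inl fun u hu => km_kc (km_mono ha' h2 hu))
      · exact Or.inr (Or.inr fun u hu => km_kc (km_mono ha h1 hu))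
      · exact Or.inr (Or.inl fun u hu => kc_mono ha' h2 hu)
    · refine Or.inr (Or.inr fun u hu => km_cf (kc_km ha h1 h2 (cf_kc hu)))

theorem km_irr (a : ℕ) : ¬ Km P R b a a := by
  rintro ⟨h1, h2 | h2⟩
  · exact h2.2.1 h1
  · exact h2.2.2.2 h2.2.2.1

/-- the elements of a cone do not see the elements outside -/
theorem mod1 {i : ℕ × Bool} {u w : ℕ} (hu : Cf P R b i u) (hw : ¬ Cf P R b i w) :
    ¬ Km P R b u w := by
  intro h
  have hP := h.1
  obtain ⟨h1, h2 | h2⟩ := cf_kc hu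
  · exact h2.2.1 hP
  · exact hw (km_cf (km_mono h1 h2.2.2 h))

/-- the elements outside see all or none of the elements of the cone -/
theorem mod2 (h : Two P R) (hb : ¬ P b ∨ ∀ w, P w) {i : ℕ × Bool} {u u' w : ℕ}
    (hu : Cf P R b i u) (hu' : Cf P R b i u') (hw : ¬ Cf P R b i w) (h1 : Km P R b w u) :
    Km P R b w u' := by
  obtain ⟨a, s⟩ := i
  have ha : P a := cf_P hu
  have hP : P w := h1.1
  have hNe : Ne P R b w := by
    obtain ⟨-, h2 | h2⟩ := h1
    · exact ⟨u, h2⟩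
    · obtain ⟨v, hv⟩ := h2.2.1
      exact ⟨v, h2.2.2.1 v hv⟩
  rcases lam_in h hb hP ha with h2 | h2 | h2
  · exact absurd ⟨km_kc h1, cf_kc hu⟩ (kc_disj h2)
  · -- `w ≤ a`, so `w` is in the closed cone
    have h3 : Kc P R b a w := ⟨ha, Or.inr ⟨hP, hNe, h2⟩⟩
    cases s
    · have h4 : Le P R b a w := by
        by_contra h4
        exact hw ⟨ha, Or.inr ⟨hP, hNe, h2, h4⟩⟩
      exact km_mono hP h4 hu'
    · exact absurd h3 hw
  · by_cases h4 : Le P R b w a
    · have h3 : Kc P R b a w := ⟨ha, Or.inr ⟨hP, hNe, h4⟩⟩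
      cases s
      · exact km_mono hP h2 hu'
      · exact absurd h3 hw
    · exact kc_km hP h2 h4 (cf_kc hu')

/-- at a node the relation `Km` is a star -/
theorem node (h : Two P R) (hb : ¬ P b ∨ ∀ w, P w) {e : ℕ → ℕ}
    (he : ∀ l m n, l ≠ m → l ≠ n → m ≠ n → ¬ CD (Cf P R b) (e l) (e m) (e n)) {u v : ℕ}
    (huv : u ≠ v) :
    Km P R b (e u) (e v) ↔
      (¬ ∃ u', u' ≠ u ∧ Km P R b (e u') (e u)) ∧ ∃ u', u' ≠ v ∧ Km P R b (e u') (e v) := by
  constructor
  · intro h1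
    refine ⟨?_, u, huv, h1⟩
    rintro ⟨u', hu', h2⟩
    have hP : P (e u) := h1.1
    obtain ⟨hP', h3 | h3⟩ := h2
    · exact h3.2.1 hP
    have h4 : Km P R b (e u') (e v) := km_mono hP' h3.2.2.1 h1
    by_cases huv' : u' = v
    · subst huv'
      exact km_irr _ h4
    · exact he u v u' huv (Ne.symm hu') (Ne.symm huv')
        (Or.inr ⟨(e u', false), ⟨hP', Or.inr h3⟩, h4, km_irr _⟩)
  · rintro ⟨h1, u', hu', h2⟩
    by_cases huu : u' = u
    · subst huu
      exact h2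
    · have hP' : P (e u') := h2.1
      have hNe : Ne P R b (e u') := by
        obtain ⟨-, h3 | h3⟩ := h2
        · exact ⟨_, h3⟩
        · obtain ⟨w, hw⟩ := h3.2.1
          exact ⟨w, h3.2.2.1 w hw⟩
      have h3 : Kc P R b (e u') (e u') := ⟨hP', Or.inr ⟨hP', hNe, Le.refl _⟩⟩
      have h4 : Kc P R b (e u') (e u) := by
        by_contra h4
        exact he u' v u hu' huu (Ne.symm huv) (Or.inr ⟨(e u', true), h3, km_kc h2, h4⟩)
      have h5 : ¬ Km P R b (e u') (e u) := fun h5 => h1 ⟨u', huu, h5⟩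
      obtain ⟨-, h6 | h6⟩ := h4
      · exact absurd ⟨hP', Or.inl h6⟩ h5
      · have h7 : Le P R b (e u') (e u) := by
          by_contra h7
          exact h5 ⟨hP', Or.inr ⟨h6.1, h6.2.1, h6.2.2, h7⟩⟩
        exact km_mono h6.1 h7 h2

/-- decoding -/
theorem dec (h : Two P R) {u v : ℕ} : R u v ↔ P u ∧ ¬ P v ∧ ¬ (Km P R b u v ↔ R u b) := by
  constructor
  · intro h1
    obtain ⟨h2, h3⟩ := h.side u v h1
    refine ⟨h2, h3, fun h4 => ?_⟩
    by_cases h5 : R u b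
    · obtain ⟨-, h6 | h6⟩ := h4.2 h5
      · exact h6.2.2 ⟨fun _ => h5, fun _ => h1⟩
      · exact h3 h6.1
    · refine h5 (h4.1 ⟨h2, Or.inl ⟨h2, h3, fun h6 => h5 (h6.1 h1)⟩⟩)
  · rintro ⟨h2, h3, h4⟩
    by_contra h1
    refine h4 ⟨?_, fun h5 => ⟨h2, Or.inl ⟨h2, h3, fun h6 => h1 (h6.2 h5)⟩⟩⟩
    rintro ⟨-, h6 | h6⟩
    · by_contra h5
      exact h6.2.2 ⟨fun h => absurd h h1, fun h => absurd h h5⟩
    · exact absurd h6.1 h3

end tree

end Pool.Agent.Y558.VCD
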