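import Pool.Agent.Y558.VCD.TwoS

set_option autoImplicit false
set_option linter.unusedVariables false

/-! Two-sorted relations of VC-dimension one are coded by tree sums. -/

namespace Pool.Agent.Y558.VCD

open Set
open Pool.Agent.H533R2.VO (RS RIso)
open Pool.Agent.H533R2.VS
open Pool.Agent.TH425.FF (PCanon PExp FlipS flip_all pexp_vcu pexp_coan pexp_inv)
open Pool.Agent.W875.TS (IsTree p3)
open Pool.Agent.H899R2.VP (HasCliqueSubdivision)

theorem mk_iff {a b : ℕ → ℕ} {Φ : (i : ℕ) → List ℕ → RS a → (Fin (b i) → ℕ) → Prop}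
    {p : List ℕ} {x : RS a} {i : ℕ} {t : Fin (b i) → ℕ} : mk Φ p x i t = true ↔ Φ i p x t := by
  classical
  unfold mk
  exact decide_eq_true_iff

section

variable {P : ℕ → Prop} {R : ℕ → ℕ → Prop} {b : ℕ}

theorem cd_mod1 {u c w : ℕ} (h : CD (Cf P R b) u c w) : Km P R b u w ↔ Km P R b c w := by
  rcases h with ⟨h1, -⟩ | ⟨i, h1, h2, h3⟩
  · rw [h1]
  · exact ⟨fun h => absurd h (mod1 h1 h3), fun h => absurd h (mod1 h2 h3)⟩

theorem cd_mod2 (h : Two P R) (hb : ¬ P b ∨ ∀ w, P w) {u c w : ℕ} (h' : CD (Cf P R b) u c w) :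
    Km P R b w u ↔ Km P R b w c := by
  rcases h' with ⟨h1, -⟩ | ⟨i, h1, h2, h3⟩
  · rw [h1]
  · exact ⟨mod2 h hb h1 h2 h3, mod2 h hb h2 h1 h3⟩

end

theorem bot_clique : ¬ HasCliqueSubdivision (⊥ : SimpleGraph ℕ) := by
  rintro ⟨v, hv, Q, h1, h2, h3⟩
  have h4 : v 0 ≠ v 1 := fun h => absurd (hv h) (by omega)
  have key : ∀ {x y : ℕ}, (⊥ : SimpleGraph ℕ).Walk x y → x = y := by
    intro x y w
    cases w with
    | nil => rfl
    | cons hadj q => exact hadj.elim
  exact h4 (key (Q 0 1))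

section

variable {a : ℕ → ℕ} {iR iP : ℕ} {x : RS a} {b : ℕ}

theorem cA0 {u v w : ℕ} : mk (cA iR iP) [b] x 0 (p3 u v w) = true ↔
    CD (Cf (Uu iP x) (Rr iR x) b) u v w := by
  rw [mk_iff]
  show (∃ b', [b].head? = some b' ∧ _) ↔ _
  simp [p3]

theorem cA1 {t : Fin (bA 1) → ℕ} : mk (cA iR iP) [b] x 1 t = true ↔
    Km (Uu iP x) (Rr iR x) b (t ⟨0, by decide⟩) (t ⟨1, by decide⟩) := by
  rw [mk_iff]
  show (∃ b', [b].head? = some b' ∧ _) ↔ _
  simp only [List.head?_cons, Option.some.injEq, exists_eq_left']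
  exact Iff.rfl

theorem ff {p q : Bool} (h : ¬ p = true) : p = false := by simpa using h

theorem treeA (hx : Two (Uu iP x) (Rr iR x)) (hb : ¬ Uu iP x b ∨ ∀ w, Uu iP x w) :
    IsTree 0 FlipS (mk (cA iR iP) [b] x) where
  refl := fun u w h => cA0.2 (cd_refl h)
  irr := fun u v => by
    rw [← Bool.not_eq_true, cA0]
    exact cd_irr u v
  symm := fun u v w h => cA0.2 (cd_symm (cA0.1 h))
  c2 := fun u v w h => by
    rw [← Bool.not_eq_true, cA0]
    exact cd_c2 (lam_cf hx hb) (cA0.1 h)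
  c3 := fun u v w h z => (cd_c3 (cA0.1 h) z).imp cA0.2 cA0.2
  mod := fun i hi t k l c h => by
    rw [cA0] at h
    by_cases hkl : k = l
    · subst hkl
      exact absurd h (cd_irr _ _)
    rcases i with _ | _ | i
    · exact absurd rfl hi
    · rw [Bool.eq_iff_iff, cA1, cA1]
      have hk : (k = ⟨0, by decide⟩ ∧ l = ⟨1, by decide⟩) ∨
          (k = (⟨1, by decide⟩ : Fin (bA 1)) ∧ l = ⟨0, by decide⟩) := by
        obtain ⟨k, hk⟩ := k
        obtain ⟨l, hl⟩ := l
        have hk' : k < 2 := hk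
        have hl' : l < 2 := hl
        have hkl' : k ≠ l := fun h => hkl (Fin.ext h)
        have hc : (k = 0 ∧ l = 1) ∨ (k = 1 ∧ l = 0) := by omega
        rcases hc with ⟨rfl, rfl⟩ | ⟨rfl, rfl⟩
        · exact Or.inl ⟨rfl, rfl⟩
        · exact Or.inr ⟨rfl, rfl⟩
      have h01 : (⟨1, by decide⟩ : Fin (bA 1)) ≠ ⟨0, by decide⟩ := by
        simp
      rcases hk with ⟨rfl, rfl⟩ | ⟨rfl, rfl⟩
      · rw [Function.update_self, Function.update_of_ne h01]
        exact (cd_mod1 h).symm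
      · rw [Function.update_self, Function.update_of_ne h01.symm]
        exact (cd_mod2 hx hb h).symm
    · exfalso
      apply hkl
      have h1 := k.2
      have h2 := l.2
      simp only [bA] at h1 h2
      exact Fin.ext (by omega)
  nodes := fun e he h1 h2 => by
    classical
    have hcd : ∀ l m n, l ≠ m → l ≠ n → m ≠ n →
        ¬ CD (Cf (Uu iP x) (Rr iR x) b) (e l) (e m) (e n) := by
      intro l m n a1 a2 a3 h
      have h3 := h1 l m n a1 a2 a3
      rw [cA0.2 h] at h3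
      cases h3
    let q : ℕ → Fin 2 := fun n =>
      if ∃ u', u' ≠ n ∧ Km (Uu iP x) (Rr iR x) b (e u') (e n) then 0 else 1
    refine ⟨⊥, 2, q, fun _ c d => decide (c = 1 ∧ d = 0), bot_clique, ?_, ?_⟩
    · intro i hi u v huv _
      have h3 : i = 1 := by
        rcases i with _ | _ | i
        · simp [bA] at hi
        · rfl
        · simp [bA] at hi
      subst h3
      rw [Bool.eq_iff_iff, decide_eq_true_iff]
      have hne : ∃ j l : Fin (bA 1), (p2 u v : Fin (bA 1) → ℕ) j ≠ p2 u v l :=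
        ⟨⟨0, Nat.zero_lt_two⟩, ⟨1, Nat.one_lt_two⟩, by simp [p2, huv]⟩
      show (if (1 : ℕ) ≠ 0 ∧ ∃ j l, (p2 u v : Fin (bA 1) → ℕ) j ≠ p2 u v l then
        mk (cA iR iP) [b] x 1 (e ∘ p2 u v) else false) = true ↔ _
      rw [if_pos ⟨Nat.one_ne_zero, hne⟩, cA1]
      have e1 : (e ∘ (p2 u v : Fin (bA 1) → ℕ)) ⟨0, by decide⟩ = e u := by simp [p2]
      have e2 : (e ∘ (p2 u v : Fin (bA 1) → ℕ)) ⟨1, by decide⟩ = e v := by simp [p2]
      rw [e1, e2, node hx hb hcd huv]
      have q1 : q u = 1 ↔ ¬ ∃ u', u' ≠ u ∧ Km (Uu iP x) (Rr iR x) b (e u') (e u) := by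
        simp only [q]
        split_ifs with h4
        · simp [h4]
        · simp [h4]
      have q0 : q v = 0 ↔ ∃ u', u' ≠ v ∧ Km (Uu iP x) (Rr iR x) b (e u') (e v) := by
        simp only [q]
        split_ifs with h4
        · simp [h4]
        · simp [h4]
      rw [q1, q0]
    · intro i hi t ht j l
      exfalso
      have ht' : (if i ≠ 0 ∧ ∃ j l, t j ≠ t l then
        mk (cA iR iP) [b] x i (e ∘ t) else false) = true := ht
      clear ht
      split_ifs at ht' with h3
      obtain ⟨h4, j', l', h5⟩ := h3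
      rcases i with _ | _ | i
      · exact h4 rfl
      · exact hi rfl
      · apply h5
        have h6 := j'.2
        have h7 := l'.2
        simp only [bA] at h6 h7
        have : j' = l' := Fin.ext (by omega)
        rw [this]

theorem t_eq1 {n : ℕ} (h : n = 1) (t : Fin n → ℕ) : t = fun _ => t ⟨0, by omega⟩ := by
  subst h
  funext j
  congr 1
  exact Subsingleton.elim _ _

theorem t_eq2 {n : ℕ} (h : n = 2) (t : Fin n → ℕ) : t = p2 (t ⟨0, by omega⟩) (t ⟨1, by omega⟩) := by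
  subst h
  funext j
  unfold p2
  split_ifs with h1
  · congr 1
    exact Fin.ext h1
  · congr 1
    exact Fin.ext (by
      have := j.2
      show j.val = 1
      omega)

theorem uuA {j : ℕ} {w : ℕ} : Uu (j + 2) (mk (cA iR iP) [b] x) w ↔
    (j = iR ∧ Rr iR x w b) ∨ (j ≠ iR ∧ Uu j x w) := by
  unfold Uu
  rw [mk_iff]
  show (j = iR ∧ ∃ b', [b].head? = some b' ∧ Rr iR x w b') ∨ (j ≠ iR ∧ Uu j x w) ↔ _
  simp
  rfl

theorem decA (hR : a iR = 2) (hP : a iP = 1) (ha : ∀ i, i ≠ iR → a i ≤ 1)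
    (hx : Two (Uu iP x) (Rr iR x)) (q : List ℕ) :
    mk (dA iR iP) q (mk (cA iR iP) [b] x) = x := by
  funext i t
  rw [Bool.eq_iff_iff, mk_iff]
  have hPR : iP ≠ iR := fun h => by
    rw [h, hR] at hP
    omega
  show (i = iR ∧ ∃ h : a i = 2, _) ∨ (i ≠ iR ∧ ∃ h : a i = 1, _) ∨ (i ≠ iR ∧ a i = 0 ∧ _) ↔ _
  by_cases hi : i = iR
  · subst hi
    have hd := dec (b := b) hx (u := t ⟨0, by omega⟩) (v := t ⟨1, by omega⟩)
    have h1 : x i t = true ↔ Rr i x (t ⟨0, by omega⟩) (t ⟨1, by omega⟩) := by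
      unfold Rr
      rw [← t_eq2 hR t]
    rw [h1, hd]
    have h2 : Rr 1 (mk (cA i iP) [b] x) (t ⟨0, by omega⟩) (t ⟨1, by omega⟩) ↔
        Km (Uu iP x) (Rr i x) b (t ⟨0, by omega⟩) (t ⟨1, by omega⟩) := by
      unfold Rr
      rw [cA1]
      rfl
    constructor
    · rintro (⟨-, h, h3, h4, h5⟩ | h | h)
      · rw [uuA] at h3 h4 h5
        rw [h2] at h5
        simp only [hPR, false_and, ne_eq, not_false_eq_true, true_and, false_or] at h3 h4
        simp only [true_and, ne_eq, not_true_eq_false, false_and, or_false] at h5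
        exact ⟨h3, h4, h5⟩
      · exact absurd rfl h.1
      · exact absurd rfl h.1
    · rintro ⟨h3, h4, h5⟩
      refine Or.inl ⟨rfl, hR, ?_⟩
      rw [uuA, uuA, uuA, h2]
      simp only [hPR, false_and, ne_eq, not_false_eq_true, true_and, false_or, not_true_eq_false,
        or_false]
      exact ⟨h3, h4, h5⟩
  · have h1 := ha i hi
    have h2 : a i = 0 ∨ a i = 1 := by omega
    rcases h2 with h2 | h2
    · constructor
      · rintro (h | ⟨-, h, -⟩ | ⟨-, -, w, hw⟩)
        · exact absurd h.1 hi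
        · omega
        · rw [uuA] at hw
          rcases hw with ⟨h3, -⟩ | ⟨-, h3⟩
          · exact absurd h3 hi
          · unfold Uu at h3
            have : t = fun _ => w := by
              funext j
              exact absurd j.2 (by omega)
            rw [this]
            exact h3
      · intro h
        refine Or.inr (Or.inr ⟨hi, h2, 0, ?_⟩)
        rw [uuA]
        refine Or.inr ⟨hi, ?_⟩
        unfold Uu
        have : t = fun _ => 0 := by
          funext j
          exact absurd j.2 (by omega)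
        rw [← this]
        exact h
    · constructor
      · rintro (h | ⟨-, h, h3⟩ | ⟨-, h, -⟩)
        · exact absurd h.1 hi
        · rw [uuA] at h3
          rcases h3 with ⟨h3, -⟩ | ⟨-, h3⟩
          · exact absurd h3 hi
          · unfold Uu at h3
            rw [t_eq1 h2 t]
            exact h3
        · omega
      · intro h
        refine Or.inr (Or.inl ⟨hi, h2, ?_⟩)
        rw [uuA]
        refine Or.inr ⟨hi, ?_⟩
        unfold Uu
        rw [t_eq1 h2 t] at h
        exact h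

end

/-- The expansions of the two-sorted relations of VC-dimension one satisfy Vaught's conjecture. -/
theorem vcu_two {a : ℕ → ℕ} {iR iP : ℕ} (hR : a iR = 2) (hP : a iP = 1)
    (ha : ∀ i, i ≠ iR → a i ≤ 1) :
    ∃ V : RS a → Prop, VCu V ∧ Coan V ∧ Inv V ∧
      ∀ x : RS a, Two (Uu iP x) (Rr iR x) → V x := by
  have h1 : VCu (IsTree 0 FlipS : RS bA → Prop) :=
    Pool.Agent.W875.TS.ts_tree bA bA_pos 0 rfl FlipS (flip_all bA).1
  have h2 : Coan (IsTree 0 FlipS : RS bA → Prop) :=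
    Pool.Agent.W875.TS.ts_ctree bA 0 FlipS (flip_all bA).2.1
  have h3 : Inv (IsTree 0 FlipS : RS bA → Prop) := Pool.Agent.W875.TS.ts_itree bA 0 FlipS
  refine ⟨PExp (mk (cA iR iP)) (mk (dA iR iP)) (IsTree 0 FlipS), pexp_vcu (pc_A iR iP) h1 h2 h3,
    pexp_coan (pc_A iR iP) h2, pexp_inv (pc_A iR iP) h3, fun x hx => ?_⟩
  by_cases hb : ∃ b, ¬ Uu iP x b
  · obtain ⟨b, hb⟩ := hb
    exact ⟨[b], treeA hx (Or.inl hb), decA hR hP ha hx _⟩
  · push Not at hb
    exact ⟨[0], treeA hx (Or.inr hb), decA hR hP ha hx _⟩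

end Pool.Agent.Y558.VCD
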