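import Pool.Agent.Y558.VCD.Lam
import Pool.Agent.W875.TS.FIN

set_option autoImplicit false
set_option linter.unusedVariables false

/-! Two-sorted relations of VC-dimension one: the coding by tree sums. -/

namespace Pool.Agent.Y558.VCD

open Set
open Pool.Agent.H533R2.VO (RS RIso)
open Pool.Agent.H533R2.VS
open Pool.Agent.TH425.FF (PCanon PExp FlipS)
open Pool.Agent.W875.TS (IsTree p3)

/-- arities of the coded structures -/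
def bA : ℕ → ℕ
  | 0 => 3
  | 1 => 2
  | _ + 2 => 1

theorem bA_pos (i : ℕ) : 0 < bA i := by
  rcases i with _ | _ | i <;> simp [bA]

section

variable {a : ℕ → ℕ} (iR : ℕ) (iP : ℕ)

/-- the relation -/
def Rr (x : RS a) (u v : ℕ) : Prop := x iR (p2 u v) = true

/-- the unary predicate number `j` -/
def Uu (j : ℕ) (x : RS a) (u : ℕ) : Prop := x j (fun _ => u) = true

variable {iR iP}

section nc

theorem nc_In : Nc fun (_ : List ℕ) (x : RS a) (v : (ℕ × ℕ) × ℕ) =>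
    In (Uu iP x) (Rr iR x) v.1.1 v.1.2 v.2 :=
  (Nc.un iP (fun v : (ℕ × ℕ) × ℕ => v.1.2) fun _ _ => rfl).and
    ((Nc.un iP (fun v : (ℕ × ℕ) × ℕ => v.2) fun _ _ => rfl).not.and
      ((Nc.bin iR (fun v : (ℕ × ℕ) × ℕ => v.1.2) (fun v => v.2) (fun _ _ => rfl)
        fun _ _ => rfl).iff
      (Nc.bin iR (fun v : (ℕ × ℕ) × ℕ => v.1.2) (fun v => v.1.1) (fun _ _ => rfl)
        fun _ _ => rfl)).not)

theorem nc_Ne : Nc fun (_ : List ℕ) (x : RS a) (v : ℕ × ℕ) =>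
    Ne (Uu iP x) (Rr iR x) v.1 v.2 := (nc_In (a := a)).ex

theorem nc_Le : Nc fun (_ : List ℕ) (x : RS a) (v : (ℕ × ℕ) × ℕ) =>
    Le (Uu iP x) (Rr iR x) v.1.1 v.1.2 v.2 :=
  Nc.all (((nc_In (a := a)).sub (fun v : ((ℕ × ℕ) × ℕ) × ℕ => ((v.1.1.1, v.1.1.2), v.2))
    fun _ _ => rfl).imp ((nc_In (a := a)).sub
      (fun v : ((ℕ × ℕ) × ℕ) × ℕ => ((v.1.1.1, v.1.2), v.2)) fun _ _ => rfl))

theorem nc_Kc : Nc fun (_ : List ℕ) (x : RS a) (v : (ℕ × ℕ) × ℕ) =>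
    Kc (Uu iP x) (Rr iR x) v.1.1 v.1.2 v.2 :=
  (Nc.un iP (fun v : (ℕ × ℕ) × ℕ => v.1.2) fun _ _ => rfl).and
    (nc_In.or ((Nc.un iP (fun v : (ℕ × ℕ) × ℕ => v.2) fun _ _ => rfl).and
      (((nc_Ne (a := a)).sub (fun v : (ℕ × ℕ) × ℕ => (v.1.1, v.2)) fun _ _ => rfl).and
        ((nc_Le (a := a)).sub (fun v : (ℕ × ℕ) × ℕ => ((v.1.1, v.2), v.1.2)) fun _ _ => rfl))))

theorem nc_Km : Nc fun (_ : List ℕ) (x : RS a) (v : (ℕ × ℕ) × ℕ) =>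
    Km (Uu iP x) (Rr iR x) v.1.1 v.1.2 v.2 :=
  (Nc.un iP (fun v : (ℕ × ℕ) × ℕ => v.1.2) fun _ _ => rfl).and
    (nc_In.or ((Nc.un iP (fun v : (ℕ × ℕ) × ℕ => v.2) fun _ _ => rfl).and
      (((nc_Ne (a := a)).sub (fun v : (ℕ × ℕ) × ℕ => (v.1.1, v.2)) fun _ _ => rfl).and
        (((nc_Le (a := a)).sub (fun v : (ℕ × ℕ) × ℕ => ((v.1.1, v.2), v.1.2))
          fun _ _ => rfl).and nc_Le.not))))

theorem cd_eq {P : ℕ → Prop} {R : ℕ → ℕ → Prop} {b u v w : ℕ} : CD (Cf P R b) u v w ↔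
    (u = v ∧ v ≠ w) ∨ ∃ c, (Kc P R b c u ∧ Kc P R b c v ∧ ¬ Kc P R b c w) ∨
      (Km P R b c u ∧ Km P R b c v ∧ ¬ Km P R b c w) := by
  refine or_congr_right ⟨?_, ?_⟩
  · rintro ⟨⟨c, s⟩, h⟩
    cases s
    · exact ⟨c, Or.inr h⟩
    · exact ⟨c, Or.inl h⟩
  · rintro ⟨c, h | h⟩
    · exact ⟨(c, true), h⟩
    · exact ⟨(c, false), h⟩

theorem nc_CD : Nc fun (_ : List ℕ) (x : RS a) (v : ((ℕ × ℕ) × ℕ) × ℕ) =>
    CD (Cf (Uu iP x) (Rr iR x) v.2) v.1.1.1 v.1.1.2 v.1.2 := by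
  have h1 : ∀ f : (((ℕ × ℕ) × ℕ) × ℕ) × ℕ → ℕ, (∀ σ v, f (Env.sm σ v) = Env.sm σ (f v)) →
      Nc fun (_ : List ℕ) (x : RS a) (v : (((ℕ × ℕ) × ℕ) × ℕ) × ℕ) =>
        Kc (Uu iP x) (Rr iR x) v.1.2 v.2 (f v) := fun f hf =>
    nc_Kc.sub (fun v => ((v.1.2, v.2), f v)) fun σ v => by
      rw [hf]
      rfl
  have h2 : ∀ f : (((ℕ × ℕ) × ℕ) × ℕ) × ℕ → ℕ, (∀ σ v, f (Env.sm σ v) = Env.sm σ (f v)) →
      Nc fun (_ : List ℕ) (x : RS a) (v : (((ℕ × ℕ) × ℕ) × ℕ) × ℕ) =>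
        Km (Uu iP x) (Rr iR x) v.1.2 v.2 (f v) := fun f hf =>
    nc_Km.sub (fun v => ((v.1.2, v.2), f v)) fun σ v => by
      rw [hf]
      rfl
  refine Nc.congr (((Nc.eq (fun v : ((ℕ × ℕ) × ℕ) × ℕ => v.1.1.1) (fun v => v.1.1.2)
    (fun _ _ => rfl) fun _ _ => rfl).and (Nc.eq (fun v : ((ℕ × ℕ) × ℕ) × ℕ => v.1.1.2)
    (fun v => v.1.2) (fun _ _ => rfl) fun _ _ => rfl).not).or
    (Nc.ex (((h1 (fun v => v.1.1.1.1) fun _ _ => rfl).and ((h1 (fun v => v.1.1.1.2)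
      fun _ _ => rfl).and (h1 (fun v => v.1.1.2) fun _ _ => rfl).not)).or
      ((h2 (fun v => v.1.1.1.1) fun _ _ => rfl).and ((h2 (fun v => v.1.1.1.2)
      fun _ _ => rfl).and (h2 (fun v => v.1.1.2) fun _ _ => rfl).not))))) fun p x v => ?_
  exact ⟨fun h => cd_eq.2 h, fun h => cd_eq.1 h⟩

end nc

variable (iR iP)

/-- the coded structure -/
def cA : (i : ℕ) → List ℕ → RS a → (Fin (bA i) → ℕ) → Prop
  | 0 => fun p x (t : Fin 3 → ℕ) => ∃ b, p.head? = some b ∧ CD (Cf (Uu iP x) (Rr iR x) b) (t 0) (t 1) (t 2)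
  | 1 => fun p x (t : Fin 2 → ℕ) => ∃ b, p.head? = some b ∧ Km (Uu iP x) (Rr iR x) b (t 0) (t 1)
  | j + 2 => fun p x (t : Fin 1 → ℕ) => (j = iR ∧ ∃ b, p.head? = some b ∧ Rr iR x (t 0) b) ∨
      (j ≠ iR ∧ Uu j x (t 0))

/-- the decoded structure -/
def dA : (i : ℕ) → List ℕ → RS bA → (Fin (a i) → ℕ) → Prop := fun i _ z t =>
  (i = iR ∧ ∃ h : a i = 2, Uu (iP + 2) z (t ⟨0, by omega⟩) ∧ ¬ Uu (iP + 2) z (t ⟨1, by omega⟩) ∧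
    ¬ (Rr 1 z (t ⟨0, by omega⟩) (t ⟨1, by omega⟩) ↔ Uu (iR + 2) z (t ⟨0, by omega⟩))) ∨
  (i ≠ iR ∧ ∃ h : a i = 1, Uu (i + 2) z (t ⟨0, by omega⟩)) ∨
  (i ≠ iR ∧ a i = 0 ∧ ∃ w, Uu (i + 2) z w)

theorem nc_cA (i : ℕ) : Nc (cA (a := a) iR iP i) := by
  rcases i with _ | _ | j
  · refine Nc.par (Φ := fun _ (x : RS a) (v : (Fin 3 → ℕ) × ℕ) =>
      CD (Cf (Uu iP x) (Rr iR x) v.2) (v.1 0) (v.1 1) (v.1 2)) ?_
    exact nc_CD.sub (fun v : (Fin 3 → ℕ) × ℕ => (((v.1 0, v.1 1), v.1 2), v.2)) fun _ _ => rfl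
  · refine Nc.par (Φ := fun _ (x : RS a) (v : (Fin 2 → ℕ) × ℕ) =>
      Km (Uu iP x) (Rr iR x) v.2 (v.1 0) (v.1 1)) ?_
    exact nc_Km.sub (fun v : (Fin 2 → ℕ) × ℕ => ((v.2, v.1 0), v.1 1)) fun _ _ => rfl
  · refine Nc.or (Nc.and (Nc.const _) (Nc.par (Φ := fun _ (x : RS a) (v : (Fin 1 → ℕ) × ℕ) =>
      Rr iR x (v.1 0) v.2) ?_)) ((Nc.const _).and ?_)
    · exact Nc.bin iR (fun v : (Fin 1 → ℕ) × ℕ => v.1 0) (fun v => v.2) (fun _ _ => rfl)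
        fun _ _ => rfl
    · exact Nc.un j (fun v : Fin 1 → ℕ => v 0) fun _ _ => rfl

theorem nc_exh {E : Type} [Env E] {Q : Prop} {Φ : Q → List ℕ → RS a → E → Prop}
    (h : ∀ q, Nc (Φ q)) : Nc fun p x v => ∃ q : Q, Φ q p x v := by
  by_cases hq : Q
  · refine (h hq).congr fun p x v => ⟨fun h1 => ⟨hq, h1⟩, fun h1 => h1.2⟩
  · refine (Nc.const False).congr fun p x v => ⟨fun h1 => h1.elim, fun h1 => hq h1.1⟩

theorem nc_dA (i : ℕ) : Nc (dA (a := a) iR iP i) := by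
  refine Nc.or ((Nc.const _).and (nc_exh fun h => ?_)) (Nc.or ((Nc.const _).and
    (nc_exh fun h => ?_)) ((Nc.const _).and ((Nc.const _).and ?_)))
  · refine (Nc.un (iP + 2) (fun t : Fin (a i) → ℕ => t ⟨0, by omega⟩) fun _ _ => rfl).and
      ((Nc.un (iP + 2) (fun t : Fin (a i) → ℕ => t ⟨1, by omega⟩) fun _ _ => rfl).not.and
      (Nc.iff ?_ ?_).not)
    · exact Nc.bin 1 (fun t : Fin (a i) → ℕ => t ⟨0, by omega⟩) (fun t => t ⟨1, by omega⟩)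
        (fun _ _ => rfl) fun _ _ => rfl
    · exact Nc.un (iR + 2) (fun t : Fin (a i) → ℕ => t ⟨0, by omega⟩) fun _ _ => rfl
  · exact Nc.un (i + 2) (fun t : Fin (a i) → ℕ => t ⟨0, by omega⟩) fun _ _ => rfl
  · exact Nc.ex (Nc.un (i + 2) (fun v : (Fin (a i) → ℕ) × ℕ => v.2) fun _ _ => rfl)

theorem pc_A : PCanon (mk (cA (a := a) iR iP)) (mk (dA (a := a) iR iP)) :=
  pcanon (nc_cA iR iP) (nc_dA iR iP)

end

end Pool.Agent.Y558.VCD
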